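import Mathlib

open MeasureTheory Filter Set Topology
open scoped ENNReal

namespace Pool.Agent.Lib.Helper97.PAM

/-- one dimensional bump -/
noncomputable def bump (R y : ℝ) : ℝ := (max (R ^ 2 - y ^ 2) 0) ^ 2

lemma bump_nonneg (R y : ℝ) : 0 ≤ bump R y := sq_nonneg _

lemma bump_of_abs_lt {R y : ℝ} (h : y ^ 2 ≤ R ^ 2) : bump R y = (R ^ 2 - y ^ 2) ^ 2 := by
  unfold bump; rw [max_eq_left (by linarith)]

lemma bump_of_le {R y : ℝ} (h : R ^ 2 ≤ y ^ 2) : bump R y = 0 := by
  unfold bump; rw [max_eq_right (by linarith)]; simp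

lemma bump_neg (R y : ℝ) : bump R (-y) = bump R y := by unfold bump; simp

lemma bump_le (R y : ℝ) : bump R y ≤ R ^ 4 := by
  unfold bump
  have h1 : max (R ^ 2 - y ^ 2) 0 ≤ R ^ 2 := max_le (by nlinarith [sq_nonneg y]) (sq_nonneg R)
  have h2 : 0 ≤ max (R ^ 2 - y ^ 2) 0 := le_max_right _ _
  nlinarith [mul_self_le_mul_self h2 h1]

lemma hasDerivAt_max_sq (a : ℝ) : HasDerivAt (fun a : ℝ => (max a 0) ^ 2) (2 * max a 0) a := by
  rcases lt_trichotomy a 0 with h | h | h
  · have h1 : (fun a : ℝ => (max a 0) ^ 2) =ᶠ[𝓝 a] fun _ => 0 := by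
      filter_upwards [Iio_mem_nhds h] with b hb
      rw [max_eq_right (le_of_lt hb)]; simp
    rw [max_eq_right h.le, mul_zero]
    exact (hasDerivAt_const a 0).congr_of_eventuallyEq h1
  · subst h
    rw [max_self, mul_zero, hasDerivAt_iff_isLittleO]
    simp only [max_self, sub_zero, ne_eq, OfNat.ofNat_ne_zero, not_false_eq_true, zero_pow,
      smul_eq_mul, mul_zero]
    have h1 : (fun x : ℝ => (max x 0) ^ 2) =O[𝓝 0] fun x : ℝ => x ^ 2 := by
      refine Asymptotics.isBigO_of_le _ fun x => ?_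
      rw [Real.norm_eq_abs, Real.norm_eq_abs, abs_of_nonneg (sq_nonneg _),
        abs_of_nonneg (sq_nonneg x)]
      rcases le_total x 0 with h | h
      · rw [max_eq_right h]; nlinarith [sq_nonneg x]
      · rw [max_eq_left h]
    refine h1.trans_isLittleO ?_
    have := Asymptotics.isLittleO_pow_id (𝕜 := ℝ) (n := 2) (by norm_num)
    exact this
  · have h1 : (fun a : ℝ => (max a 0) ^ 2) =ᶠ[𝓝 a] fun a => a ^ 2 := by
      filter_upwards [Ioi_mem_nhds h] with b hb
      rw [max_eq_left (le_of_lt hb)]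
    rw [max_eq_left h.le]
    have := hasDerivAt_pow 2 a
    simp only [Nat.cast_ofNat, Nat.add_one_sub_one, pow_one] at this
    exact this.congr_of_eventuallyEq h1

/-- derivative of the bump -/
noncomputable def bump' (R y : ℝ) : ℝ := -4 * y * max (R ^ 2 - y ^ 2) 0

lemma hasDerivAt_bump (R y : ℝ) : HasDerivAt (bump R) (bump' R y) y := by
  have h1 : HasDerivAt (fun y : ℝ => R ^ 2 - y ^ 2) (-(2 * y)) y := by
    have := (hasDerivAt_pow 2 y).const_sub (R ^ 2)
    simpa using this
  have h2 := (hasDerivAt_max_sq (R ^ 2 - y ^ 2)).comp y h1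
  unfold bump'
  refine HasDerivAt.congr_deriv h2 ?_
  ring

lemma bump_ineq_aux {κ p R η y : ℝ} (hκ : 0 < κ) (hp : 0 ≤ p) (hpκ : 6 * p ≤ κ) (hR : 3 ≤ R)
    (hη : 0 < η) (hcond : (12 * κ + 4 * p * R) ^ 2 ≤ 32 * η * κ * R ^ 2) (hy : 0 ≤ y) :
    - (η * bump R y) ≤
      κ * (bump R (y + 1) + bump R (y - 1) - 2 * bump R y) - p * |bump' R y| := by
  rcases le_or_gt (R ^ 2) (y ^ 2) with h | h
  · have h1 : bump' R y = 0 := by unfold bump'; rw [max_eq_right (by linarith)]; ring
    rw [bump_of_le h, h1, abs_zero]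
    have := bump_nonneg R (y + 1)
    have := bump_nonneg R (y - 1)
    have : 0 ≤ κ * (bump R (y + 1) + bump R (y - 1)) := by positivity
    linarith
  · have hyR : y < R := lt_of_pow_lt_pow_left₀ 2 (by linarith) h
    set a := R ^ 2 - y ^ 2 with ha
    have hapos : 0 < a := by rw [ha]; linarith
    have h0 : bump R y = a ^ 2 := by rw [bump_of_abs_lt h.le]
    have hm1 : bump R (y - 1) = (a + 2 * y - 1) ^ 2 := by
      rw [bump_of_abs_lt]
      · rw [ha]; ring
      · have h2 : |y - 1| ≤ |R| := by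
          rw [abs_of_pos (by linarith : 0 < R), abs_le]; constructor <;> linarith
        exact sq_le_sq.mpr h2
    have hd : |bump' R y| = 4 * y * a := by
      unfold bump'
      rw [max_eq_left (by linarith), ← ha, abs_mul, abs_mul, abs_of_pos hapos, abs_of_nonneg hy]
      norm_num
    rw [h0, hm1, hd]
    rcases le_or_gt (2 * y + 1) a with h3 | h3
    · have hp1 : bump R (y + 1) = (a - 2 * y - 1) ^ 2 := by
        rw [bump_of_abs_lt]
        · rw [ha]; ring
        · rw [ha] at h3; nlinarith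
      rw [hp1]
      have e1 : κ * ((a - 2 * y - 1) ^ 2 + (a + 2 * y - 1) ^ 2 - 2 * a ^ 2)
          = κ * (8 * R ^ 2 - 12 * a + 2) := by
        have : y ^ 2 = R ^ 2 - a := by rw [ha]; ring
        have e2 : (a - 2 * y - 1) ^ 2 + (a + 2 * y - 1) ^ 2 - 2 * a ^ 2
          = 8 * y ^ 2 - 4 * a + 2 := by ring
        rw [e2, this]; ring
      rw [e1]
      have h5 : p * (4 * y * a) ≤ p * (4 * R * a) := by gcongr
      have h6 : 0 ≤ η * a ^ 2 - (12 * κ + 4 * p * R) * a + 8 * κ * R ^ 2 := by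
        have : 0 ≤ 4 * η * (η * a ^ 2 - (12 * κ + 4 * p * R) * a + 8 * κ * R ^ 2) := by
          have e3 : 4 * η * (η * a ^ 2 - (12 * κ + 4 * p * R) * a + 8 * κ * R ^ 2)
            = (2 * η * a - (12 * κ + 4 * p * R)) ^ 2
              + (32 * η * κ * R ^ 2 - (12 * κ + 4 * p * R) ^ 2) := by ring
          rw [e3]
          have := sq_nonneg (2 * η * a - (12 * κ + 4 * p * R))
          linarith
        exact nonneg_of_mul_nonneg_right this (by positivity)
      nlinarith
    · have hyl : R - 1 < y := by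
        by_contra hcon
        push Not at hcon
        have : (y + 1) ^ 2 ≤ R ^ 2 := by
          apply pow_le_pow_left₀ (by linarith)
          linarith
        rw [ha] at h3
        nlinarith
      have hbp : 0 ≤ bump R (y + 1) := bump_nonneg _ _
      have hb2 : 2 ≤ 2 * y - 1 := by linarith
      set b := 2 * y - 1 with hb
      have hy2 : 2 * y = b + 1 := by rw [hb]; ring
      have e1 : a + 2 * y - 1 = a + b := by rw [hb]; ring
      rw [e1]
      have hab : a < b + 2 := by linarith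
      have e2 : b ^ 2 ≤ (a + b) ^ 2 - 2 * a ^ 2 := by nlinarith
      have e3 : p * (4 * y * a) ≤ κ * b ^ 2 := by
        have e4 : p * (4 * y * a) = p * (2 * (b + 1) * a) := by rw [← hy2]; ring
        rw [e4]
        have e5 : p * (2 * (b + 1) * a) ≤ p * (2 * (b + 1) * (b + 2)) := by
          gcongr
        have e6 : (b + 1) * (b + 2) ≤ 3 * b ^ 2 := by nlinarith
        have e7 : p * (2 * (b + 1) * (b + 2)) ≤ p * (6 * b ^ 2) := by
          have : 2 * (b + 1) * (b + 2) ≤ 6 * b ^ 2 := by nlinarith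
          gcongr
        nlinarith [sq_nonneg b]
      have e8 : κ * b ^ 2 ≤ κ * (bump R (y + 1) + (a + b) ^ 2 - 2 * a ^ 2) := by
        have : b ^ 2 ≤ bump R (y + 1) + (a + b) ^ 2 - 2 * a ^ 2 := by linarith
        gcongr
      have : 0 ≤ η * a ^ 2 := by positivity
      linarith

lemma bump_ineq {κ p R η : ℝ} (hκ : 0 < κ) (hp : 0 ≤ p) (hpκ : 6 * p ≤ κ) (hR : 3 ≤ R)
    (hη : 0 < η) (hcond : (12 * κ + 4 * p * R) ^ 2 ≤ 32 * η * κ * R ^ 2) (y : ℝ) :
    - (η * bump R y) ≤
      κ * (bump R (y + 1) + bump R (y - 1) - 2 * bump R y) - p * |bump' R y| := by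
  rcases le_total 0 y with h | h
  · exact bump_ineq_aux hκ hp hpκ hR hη hcond h
  · have := bump_ineq_aux hκ hp hpκ hR hη hcond (y := -y) (by linarith)
    rw [bump_neg] at this
    have e1 : bump R (-y + 1) = bump R (y - 1) := by
      rw [← bump_neg]; congr 1; ring
    have e2 : bump R (-y - 1) = bump R (y + 1) := by
      rw [← bump_neg]; congr 1; ring
    have e3 : |bump' R (-y)| = |bump' R y| := by
      unfold bump'
      rw [show (-4 * -y * max (R ^ 2 - (-y) ^ 2) 0) = -(-4 * y * max (R ^ 2 - y ^ 2) 0) by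
        rw [neg_sq]; ring, abs_neg]
    rw [e1, e2, e3] at this
    linarith

end Pool.Agent.Lib.Helper97.PAM
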