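import Mathlib

/-!
# The parabolic Anderson model in a dynamic random environment: definitions

Lattice points are `x : Fin d → ℤ`, with `d ≥ 1` encoded by `[NeZero d]`.
A random field is a function `ξ : Ω → (Fin d → ℤ) → ℝ → ℝ`; only its values at times `t ≥ 0`
enter the definitions below.

The continuous-time simple random walk `X^κ` on `ℤ^d`, started at `0` and jumping at rate `2dκ`,
is realised concretely: the sample space is the space of sequences
`w = ((τ_0, e_0), (τ_1, e_1), ...)`, the `τ_k` are i.i.d. exponential variables of mean one, the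
`e_k` are i.i.d. uniform among the `2d` unit vectors `± e_i`, all independent; the rate-one walk
makes its `n`-th jump at time `τ_0 + ... + τ_(n-1)` and `X^κ(s)` is the position of the rate-one
walk at time `2dκs`.
-/

open MeasureTheory Filter Set Topology ProbabilityTheory
open scoped ENNReal NNReal

namespace Pool.Agent.Lib.Helper97.PAM

variable {d : ℕ}

/-- The `2d` unit steps of the lattice `ℤ^d`: the index `(i, true)` is the step `+e_i` and
`(i, false)` is the step `-e_i`. -/
def unitStep (j : Fin d × Bool) : Fin d → ℤ :=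
  if j.2 then Pi.single j.1 1 else -Pi.single j.1 1

/-- The law of one pair (waiting time, step): the waiting time is exponential with rate `1`, the
step is uniform among the `2d` unit steps, and the two are independent. -/
noncomputable def clockLaw (d : ℕ) [NeZero d] : Measure (ℝ × (Fin d × Bool)) :=
  (expMeasure 1).prod (PMF.uniformOfFintype (Fin d × Bool)).toMeasure

/-- The law of the driving sequence of the walk: i.i.d. pairs (waiting time, step). -/
noncomputable def walkLaw (d : ℕ) [NeZero d] : Measure (ℕ → ℝ × (Fin d × Bool)) :=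
  Measure.infinitePi fun _ => clockLaw d

/-- `jumpTime w n` is the time of the `n`-th jump of the rate-one walk, i.e. the sum of the first
`n` waiting times. -/
def jumpTime (w : ℕ → ℝ × (Fin d × Bool)) (n : ℕ) : ℝ := ∑ k ∈ Finset.range n, (w k).1

/-- `jumpCount w s` is the number of jumps of the rate-one walk up to and including time `s`: the
least `n` such that the `(n+1)`-st jump occurs after time `s`. -/
noncomputable def jumpCount (w : ℕ → ℝ × (Fin d × Bool)) (s : ℝ) : ℕ :=
  sInf {n | s < jumpTime w (n + 1)}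

/-- The position of the rate-one walk at time `s`: the sum of the steps made up to time `s`. -/
noncomputable def position (w : ℕ → ℝ × (Fin d × Bool)) (s : ℝ) : Fin d → ℤ :=
  ∑ k ∈ Finset.range (jumpCount w s), unitStep (w k).2

/-- The continuous-time simple random walk `X^κ` on `ℤ^d` started at `0`, jumping at rate `2dκ`:
`X^κ(s)` is the position of the rate-one walk at time `2dκs`. -/
noncomputable def walk (κ : ℝ) (w : ℕ → ℝ × (Fin d × Bool)) (s : ℝ) : Fin d → ℤ :=
  position w (2 * d * κ * s)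

/-- The solution at the origin given by the Feynman-Kac formula:
`u(0,t) = E_0 ( exp [ γ ∫_0^t ξ(X^κ(s), s) ds ] 1{X^κ(t) = 0} )`. -/
noncomputable def feynmanKac [NeZero d] (κ γ : ℝ) (ξ : (Fin d → ℤ) → ℝ → ℝ) (t : ℝ) : ℝ :=
  ∫ w, Real.exp (γ * ∫ s in (0:ℝ)..t, ξ (walk κ w s) s) * (if walk κ w t = 0 then 1 else 0)
    ∂(walkLaw d)

/-- The realisation of the field, as a point of the path space `ℝ^(ℤ^d × [0,∞))`. -/
def path {Ω : Type*} (ξ : Ω → (Fin d → ℤ) → ℝ → ℝ) (ω : Ω) : (Fin d → ℤ) × ℝ≥0 → ℝ :=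
  fun p => ξ ω p.1 p.2

/-- The space-time shift by `(y, s)`, `y ∈ ℤ^d`, `s ≥ 0`, on the path space. -/
def shift (y : Fin d → ℤ) (s : ℝ≥0) (f : (Fin d → ℤ) × ℝ≥0 → ℝ) : (Fin d → ℤ) × ℝ≥0 → ℝ :=
  fun p => f (p.1 + y, p.2 + s)

/-- Assumption (A1): the field is stationary under all space-time shifts; it is ergodic under the
time shifts alone and also ergodic under the space shifts alone (hence ergodic under space-time
shifts); here an event which is almost surely invariant under all the shifts considered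
has probability `0` or `1`; the field is not constant, and `ξ(0,0)` is integrable with
mean `ρ`. -/
structure AssumptionA1 {Ω : Type*} [MeasurableSpace Ω] (P : Measure Ω)
    (ξ : Ω → (Fin d → ℤ) → ℝ → ℝ) (ρ : ℝ) : Prop where
  measurable : ∀ x t, Measurable fun ω => ξ ω x t
  stationary : ∀ y s, P.map (fun ω => shift y s (path ξ ω)) = P.map (path ξ)
  ergodic_time : ∀ B : Set ((Fin d → ℤ) × ℝ≥0 → ℝ), MeasurableSet B →
    (∀ s : ℝ≥0, shift 0 s ⁻¹' B =ᵐ[P.map (path ξ)] B) →
    P.map (path ξ) B = 0 ∨ P.map (path ξ) B = 1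
  ergodic_space : ∀ B : Set ((Fin d → ℤ) × ℝ≥0 → ℝ), MeasurableSet B →
    (∀ y : Fin d → ℤ, shift y 0 ⁻¹' B =ᵐ[P.map (path ξ)] B) →
    P.map (path ξ) B = 0 ∨ P.map (path ξ) B = 1
  not_constant : ∀ c : ℝ, ¬ ∀ᵐ ω ∂P, ξ ω 0 0 = c
  integrable : Integrable (fun ω => ξ ω 0 0) P
  mean : ∫ ω, ξ ω 0 0 ∂P = ρ

/-- Assumption (A2): for all `κ, γ ∈ [0,∞)` there is `c < ∞` with `E log u(0,t) ≤ c t` for all
`t ≥ 0` (moreover `u(0,t) > 0` and `log u(0,t)` is integrable). -/
structure AssumptionA2 [NeZero d] {Ω : Type*} [MeasurableSpace Ω] (P : Measure Ω)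
    (ξ : Ω → (Fin d → ℤ) → ℝ → ℝ) : Prop where
  positive : ∀ κ γ t, 0 ≤ κ → 0 ≤ γ → 0 ≤ t → ∀ ω, 0 < feynmanKac κ γ (ξ ω) t
  integrable : ∀ κ γ t, 0 ≤ κ → 0 ≤ γ → 0 ≤ t →
    Integrable (fun ω => Real.log (feynmanKac κ γ (ξ ω) t)) P
  bound : ∀ κ γ, 0 ≤ κ → 0 ≤ γ → ∃ c : ℝ, ∀ t, 0 ≤ t →
    ∫ ω, Real.log (feynmanKac κ γ (ξ ω) t) ∂P ≤ c * t

/-- `l` is the quenched Lyapunov exponent `λ_0(κ) = lim_{t → ∞} (1/t) log u(0,t)`, the limit being
almost sure. -/
def IsQuenchedLyapunovExponent [NeZero d] {Ω : Type*} [MeasurableSpace Ω] (P : Measure Ω)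
    (ξ : Ω → (Fin d → ℤ) → ℝ → ℝ) (κ γ l : ℝ) : Prop :=
  ∀ᵐ ω ∂P, Tendsto (fun t : ℝ => Real.log (feynmanKac κ γ (ξ ω) t) / t) atTop (𝓝 l)

end Pool.Agent.Lib.Helper97.PAM
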