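import Mathlib

open MeasureTheory Filter Set Topology
open scoped ENNReal

namespace Pool.Agent.Lib.Helper97.PAM

/-- the periods `Q k = 2 ^ (k^2)` -/
def Q (k : ℕ) : ℝ := 2 ^ (k ^ 2)

lemma Q_pos (k : ℕ) : 0 < Q k := by unfold Q; positivity

lemma Q_succ (k : ℕ) : Q (k + 1) = 2 ^ (2 * k + 1) * Q k := by
  unfold Q; rw [← pow_add]; congr 1; ring

/-- slopes -/
noncomputable def beta (k : ℕ) : ℝ := √2 + ∑ i ∈ Finset.range k, Q i

lemma beta_succ (k : ℕ) : beta (k + 1) = beta k + Q k := by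
  unfold beta; rw [Finset.sum_range_succ]; ring

lemma beta_pos (k : ℕ) : 0 < beta k := by
  unfold beta
  have : 0 ≤ ∑ i ∈ Finset.range k, Q i := Finset.sum_nonneg fun i _ => (Q_pos i).le
  positivity

/-- the solenoid -/
def solenoid : AddSubgroup (ℕ → UnitAddCircle) where
  carrier := {w | ∀ k, (2 ^ (2 * k + 1) : ℕ) • w (k + 1) = w k}
  add_mem' := by
    intro a b ha hb k
    simp only [Pi.add_apply, smul_add, ha k, hb k]
  zero_mem' := by intro k; simp
  neg_mem' := by
    intro a ha k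
    simp only [Pi.neg_apply, smul_neg, ha k]

lemma mem_solenoid {w : ℕ → UnitAddCircle} :
    w ∈ solenoid ↔ ∀ k, (2 ^ (2 * k + 1) : ℕ) • w (k + 1) = w k := Iff.rfl

lemma isClosed_solenoid : IsClosed (solenoid : Set (ℕ → UnitAddCircle)) := by
  have : (solenoid : Set (ℕ → UnitAddCircle)) =
      ⋂ k, {w | (2 ^ (2 * k + 1) : ℕ) • w (k + 1) = w k} := by
    ext w; simp [mem_solenoid]
  rw [this]
  refine isClosed_iInter fun k => isClosed_eq ?_ ?_
  · exact (continuous_apply _).nsmul _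
  · exact continuous_apply _

instance : CompactSpace solenoid := isCompact_iff_compactSpace.mp isClosed_solenoid.isCompact

instance : SecondCountableTopology solenoid :=
  TopologicalSpace.Subtype.secondCountableTopology _

/-- probability Haar measure -/
noncomputable def haar : Measure solenoid := Measure.addHaarMeasure ⊤

instance : IsProbabilityMeasure haar := ⟨by
  have := Measure.addHaarMeasure_self (K₀ := (⊤ : TopologicalSpace.PositiveCompacts solenoid))
  simpa [haar] using this⟩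

instance : haar.IsAddHaarMeasure := by unfold haar; infer_instance

/-- space-time translation -/
noncomputable def tr (y : ℤ) (t : ℝ) : solenoid :=
  ⟨fun k => (((y * beta k + t) / Q k : ℝ) : UnitAddCircle), by
    rw [mem_solenoid]
    intro k
    have hQ := (Q_pos k).ne'
    have h1 : (2 ^ (2 * k + 1) : ℕ) • (((y * beta (k + 1) + t) / Q (k + 1) : ℝ) : UnitAddCircle)
        = (((2 ^ (2 * k + 1) : ℕ) • ((y * beta (k + 1) + t) / Q (k + 1) : ℝ) : ℝ) :
          UnitAddCircle) := by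
      rw [AddCircle.coe_nsmul]
    have h2 : ((2 ^ (2 * k + 1) : ℕ) • ((y * beta (k + 1) + t) / Q (k + 1) : ℝ) : ℝ)
        = (y * beta k + t) / Q k + y := by
      rw [nsmul_eq_mul, Q_succ, beta_succ]
      push_cast
      field_simp
      ring
    rw [h1, h2]
    rw [AddCircle.coe_add]
    have h3 : ((y : ℝ) : UnitAddCircle) = 0 := by
      rw [AddCircle.coe_eq_zero_iff]
      exact ⟨y, by simp⟩
    rw [h3, add_zero]⟩

lemma tr_apply (y : ℤ) (t : ℝ) (k : ℕ) :
    (tr y t : ℕ → UnitAddCircle) k = (((y * beta k + t) / Q k : ℝ) : UnitAddCircle) := rfl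

lemma tr_add (y y' : ℤ) (t t' : ℝ) : tr (y + y') (t + t') = tr y t + tr y' t' := by
  ext k
  simp only [AddSubgroup.coe_add, Pi.add_apply, tr_apply]
  rw [← AddCircle.coe_add]
  congr 1
  push_cast
  ring

lemma continuous_tr (y : ℤ) : Continuous (tr y) := by
  refine Continuous.subtype_mk ?_ _
  refine continuous_pi fun k => ?_
  refine (AddCircle.continuous_mk' (1:ℝ)).comp ?_
  fun_prop

/-- coordinate `k` is determined by coordinate `K ≥ k` -/
lemma coord_det {w w' : ℕ → UnitAddCircle} (hw : w ∈ solenoid) (hw' : w' ∈ solenoid) {K : ℕ}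
    (h : w K = w' K) : ∀ k ≤ K, w k = w' k := by
  induction K with
  | zero => intro k hk; obtain rfl : k = 0 := by omega
            exact h
  | succ K ih =>
    intro k hk
    rcases Nat.lt_or_ge K k with h1 | h1
    · obtain rfl : k = K + 1 := by omega
      exact h
    · refine ih ?_ k h1
      rw [← hw K, ← hw' K, h]

lemma dense_time : Dense (range (fun t : ℝ => tr 0 t)) := by
  rw [dense_iff_inter_open]
  rintro U hU ⟨w, hw⟩
  obtain ⟨V, hV, rfl⟩ := isOpen_induced_iff.mp hU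
  rw [isOpen_pi_iff] at hV
  obtain ⟨I, u, hu, hsub⟩ := hV w.1 hw
  obtain ⟨K, hK⟩ := I.exists_nat_subset_range
  obtain ⟨r, hr⟩ := QuotientAddGroup.mk_surjective (w.1 K)
  refine ⟨tr 0 (r * Q K), ?_, ⟨_, rfl⟩⟩
  have hK' : (tr 0 (r * Q K)).1 K = w.1 K := by
    rw [tr_apply, ← hr]
    simp only [Int.cast_zero, zero_mul, zero_add]
    rw [mul_div_assoc, div_self (Q_pos K).ne', mul_one]
  have hall := coord_det (tr 0 (r * Q K)).2 w.2 hK'
  apply hsub
  intro i hi
  have hiK : i ≤ K := by have := hK hi; simp at this; omega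
  rw [hall i hiK]
  exact (hu i hi).2

/-- coordinate `i` is a multiple of coordinate `K ≥ i` -/
lemma coord_mul (i K : ℕ) (hi : i ≤ K) : ∃ N : ℕ, ∀ w ∈ solenoid, w i = N • w K := by
  induction K with
  | zero =>
    obtain rfl : i = 0 := by omega
    exact ⟨1, fun w _ => by simp⟩
  | succ K ih =>
    rcases Nat.lt_or_ge K i with h1 | h1
    · obtain rfl : i = K + 1 := by omega
      exact ⟨1, fun w _ => by simp⟩
    · obtain ⟨N, hN⟩ := ih h1
      refine ⟨N * 2 ^ (2 * K + 1), fun w hw => ?_⟩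
      rw [hN w hw, ← hw K, mul_smul]

lemma Q_eq_cast (k : ℕ) : Q k = ((2 ^ (k ^ 2) : ℕ) : ℝ) := by unfold Q; push_cast; rfl

lemma irrational_slope (K : ℕ) : Irrational (beta K / Q K) := by
  have h1 : beta K = √2 + ((∑ i ∈ Finset.range K, 2 ^ (i ^ 2) : ℕ) : ℝ) := by
    unfold beta Q; push_cast; rfl
  rw [h1, Q_eq_cast]
  refine Irrational.div_natCast ?_ (by positivity)
  exact irrational_sqrt_two.add_natCast _

lemma dense_space : Dense (range (fun y : ℤ => tr y 0)) := by
  rw [dense_iff_inter_open]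
  rintro U hU ⟨w, hw⟩
  obtain ⟨V, hV, rfl⟩ := isOpen_induced_iff.mp hU
  rw [isOpen_pi_iff] at hV
  obtain ⟨I, u, hu, hsub⟩ := hV w.1 hw
  obtain ⟨K, hK⟩ := I.exists_nat_subset_range
  have hIK : ∀ i ∈ I, i ≤ K := fun i hi => by have := hK hi; simp at this; omega
  choose! N hN using fun i (hi : i ∈ I) => coord_mul i K (hIK i hi)
  set O : Set UnitAddCircle := ⋂ i ∈ I, {θ | N i • θ ∈ u i} with hO
  have hOo : IsOpen O := by
    refine isOpen_biInter_finset fun i hi => ?_
    exact (hu i hi).1.preimage (continuous_id.nsmul _)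
  have hwO : w.1 K ∈ O := by
    simp only [hO, mem_iInter]
    intro i hi
    have := (hu i hi).2
    rw [hN i hi w.1 w.2] at this
    exact this
  have hd : DenseRange (fun n : ℤ => n • ((beta K / Q K : ℝ) : UnitAddCircle)) := by
    have := (AddCircle.denseRange_zsmul_coe_iff (a := beta K / Q K) (p := 1)).2
      (by simpa using irrational_slope K)
    exact this
  obtain ⟨y, hy⟩ := hd.exists_mem_open hOo ⟨_, hwO⟩
  refine ⟨tr y 0, ?_, ⟨y, rfl⟩⟩
  apply hsub
  intro i hi
  rw [hN i hi _ (tr y 0).2, tr_apply]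
  have h2 : (((y * beta K + 0) / Q K : ℝ) : UnitAddCircle)
      = y • ((beta K / Q K : ℝ) : UnitAddCircle) := by
    rw [← AddCircle.coe_zsmul, zsmul_eq_mul]
    congr 1
    ring
  rw [h2]
  simp only [hO, mem_iInter] at hy
  exact hy i hi

lemma zero_or_one_generic {G : Type*} [AddCommGroup G] [TopologicalSpace G]
    [IsTopologicalAddGroup G] [CompactSpace G] [T2Space G] [SecondCountableTopology G]
    [MeasurableSpace G] [BorelSpace G] (μ : Measure G) [IsProbabilityMeasure μ]
    [μ.IsAddHaarMeasure] {S : Set G} (hS : Dense S) {A : Set G}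
    (hA : MeasurableSet A) (h : ∀ g ∈ S, (fun w => g + w) ⁻¹' A =ᵐ[μ] A) :
    μ A = 0 ∨ μ A = 1 := by
  have h1 : EventuallyConst A (ae μ) := by
    refine aeconst_of_dense_setOfPred_preimage_vadd_ae (M := G) hA.nullMeasurableSet
      (hS.mono ?_)
    intro g hg
    exact h g hg
  rw [eventuallyConst_set'] at h1
  rcases h1 with h1 | h1
  · left
    rw [measure_congr h1]; simp
  · right
    rw [measure_congr h1]; simp

lemma zero_or_one_of_dense {S : Set solenoid} (hS : Dense S) {A : Set solenoid}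
    (hA : MeasurableSet A) (h : ∀ g ∈ S, (fun w => g + w) ⁻¹' A =ᵐ[haar] A) :
    haar A = 0 ∨ haar A = 1 := zero_or_one_generic haar hS hA h

/-- bump on the circle -/
noncomputable def psi (k : ℕ) (θ : UnitAddCircle) : ℝ := max 0 (min 1 (2 - ‖θ‖ * 2 ^ (k + 4)))

lemma psi_nonneg (k : ℕ) (θ : UnitAddCircle) : 0 ≤ psi k θ := le_max_left _ _

lemma psi_le_one (k : ℕ) (θ : UnitAddCircle) : psi k θ ≤ 1 :=
  max_le zero_le_one (min_le_left _ _)

lemma psi_eq_one {k : ℕ} {θ : UnitAddCircle} (h : ‖θ‖ * 2 ^ (k + 4) ≤ 1) : psi k θ = 1 := by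
  unfold psi
  rw [min_eq_left (by linarith), max_eq_right zero_le_one]

lemma psi_eq_zero {k : ℕ} {θ : UnitAddCircle} (h : 2 ≤ ‖θ‖ * 2 ^ (k + 4)) : psi k θ = 0 := by
  unfold psi
  rw [max_eq_left]
  exact (min_le_right _ _).trans (by linarith)

lemma continuous_psi (k : ℕ) : Continuous (psi k) := by
  unfold psi; fun_prop

lemma psi_lip (k : ℕ) (θ θ' : UnitAddCircle) :
    psi k θ ≤ psi k θ' + ‖θ - θ'‖ * 2 ^ (k + 4) := by
  have h1 : ‖θ'‖ ≤ ‖θ‖ + ‖θ - θ'‖ := by
    have := norm_sub_le θ (θ - θ')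
    simpa using this
  have hp : (0 : ℝ) < 2 ^ (k + 4) := by positivity
  have h2 : ‖θ'‖ * 2 ^ (k + 4) ≤ ‖θ‖ * 2 ^ (k + 4) + ‖θ - θ'‖ * 2 ^ (k + 4) := by
    rw [← add_mul]; exact mul_le_mul_of_nonneg_right h1 hp.le
  have h3 : 0 ≤ ‖θ - θ'‖ * 2 ^ (k + 4) := by positivity
  unfold psi
  rcases le_total 0 (min 1 (2 - ‖θ‖ * 2 ^ (k + 4))) with h | h
  · rw [max_eq_right h]
    rcases le_total 1 (2 - ‖θ'‖ * 2 ^ (k + 4)) with h' | h'
    · rw [min_eq_left h', max_eq_right zero_le_one]
      have := min_le_left 1 (2 - ‖θ‖ * 2 ^ (k + 4))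
      linarith
    · rw [min_eq_right h']
      have := min_le_right 1 (2 - ‖θ‖ * 2 ^ (k + 4))
      have := le_max_right 0 (2 - ‖θ'‖ * 2 ^ (k + 4))
      linarith
  · rw [max_eq_left h]
    have := le_max_left 0 (min 1 (2 - ‖θ'‖ * 2 ^ (k + 4)))
    linarith

/-- the profile on the solenoid -/
noncomputable def F (w : solenoid) : ℝ := ⨆ k, psi k (w.1 k)

lemma bdd_psi (w : ℕ → UnitAddCircle) : BddAbove (range fun k => psi k (w k)) :=
  ⟨1, by rintro _ ⟨k, rfl⟩; exact psi_le_one _ _⟩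

lemma F_nonneg (w : solenoid) : 0 ≤ F w :=
  (psi_nonneg 0 (w.1 0)).trans (le_ciSup (bdd_psi w.1) 0)

lemma F_le_one (w : solenoid) : F w ≤ 1 := ciSup_le fun _ => psi_le_one _ _

lemma measurable_F : Measurable F := by
  unfold F
  refine Measurable.iSup fun k => ?_
  exact (continuous_psi k).measurable.comp ((measurable_pi_apply k).comp measurable_subtype_coe)

lemma Q_ge (k : ℕ) : (2 : ℝ) ^ (k + 4) / Q k ≤ 16 := by
  rw [div_le_iff₀ (Q_pos k)]
  unfold Q
  rw [pow_add]
  have h : (2 : ℝ) ^ k ≤ 2 ^ (k ^ 2) := by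
    apply pow_le_pow_right₀ (by norm_num)
    nlinarith [Nat.zero_le k, sq_nonneg k, Nat.le_self_pow (two_ne_zero) k]
  nlinarith

lemma norm_coe_le (r : ℝ) : ‖(r : UnitAddCircle)‖ ≤ |r| := by
  have := UnitAddCircle.norm_eq (x := r)
  rw [this]
  have h := round_le r 0
  simpa using h

lemma F_lip (w : solenoid) (y : ℤ) (s t : ℝ) :
    F (w + tr y t) ≤ F (w + tr y s) + 16 * |t - s| := by
  refine ciSup_le fun k => ?_
  have h1 := psi_lip k ((w + tr y t).1 k) ((w + tr y s).1 k)
  have h2 : (w + tr y t).1 k - (w + tr y s).1 k = (((t - s) / Q k : ℝ) : UnitAddCircle) := by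
    simp only [AddSubgroup.coe_add, Pi.add_apply, tr_apply, add_sub_add_left_eq_sub]
    rw [← AddCircle.coe_sub]
    congr 1
    ring
  have h3 : ‖(((t - s) / Q k : ℝ) : UnitAddCircle)‖ * 2 ^ (k + 4) ≤ 16 * |t - s| := by
    have h4 := norm_coe_le ((t - s) / Q k)
    rw [abs_div, abs_of_pos (Q_pos k)] at h4
    calc ‖(((t - s) / Q k : ℝ) : UnitAddCircle)‖ * 2 ^ (k + 4)
        ≤ |t - s| / Q k * 2 ^ (k + 4) := by gcongr
      _ = |t - s| * (2 ^ (k + 4) / Q k) := by ring
      _ ≤ |t - s| * 16 := by gcongr; exact Q_ge k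
      _ = 16 * |t - s| := by ring
  have h5 : psi k ((w + tr y s).1 k) ≤ F (w + tr y s) := le_ciSup (bdd_psi _) k
  rw [h2] at h1
  linarith

lemma continuous_F_time (w : solenoid) (y : ℤ) : Continuous fun t => F (w + tr y t) := by
  refine LipschitzWith.continuous (K := 16) (LipschitzWith.of_dist_le_mul fun t s => ?_)
  rw [Real.dist_eq, Real.dist_eq, abs_le]
  have h1 := F_lip w y s t
  have h2 := F_lip w y t s
  rw [abs_sub_comm s t] at h2
  constructor
  · simp only [NNReal.coe_ofNat]; linarith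
  · simp only [NNReal.coe_ofNat]; linarith

/-- the half-width of strips -/
noncomputable def Rad (k : ℕ) : ℝ := Q k / (beta k * 2 ^ (k + 4))

lemma strip (w : solenoid) (k : ℕ) : ∃ c : ℝ, ∀ (n : ℤ) (y : ℤ) (t : ℝ),
    |y - (c + n * (Q k / beta k) - t / beta k)| ≤ Rad k → F (w + tr y t) = 1 := by
  obtain ⟨r, hr⟩ := QuotientAddGroup.mk_surjective (w.1 k)
  have hb := beta_pos k
  have hQ := Q_pos k
  refine ⟨-(r * Q k / beta k), fun n y t h => ?_⟩
  refine le_antisymm (F_le_one _) ?_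
  refine le_trans (le_of_eq ?_) (le_ciSup (bdd_psi (w + tr y t).1) k)
  symm
  apply psi_eq_one
  have h1 : (w + tr y t).1 k =
      ((beta k * (y - (-(r * Q k / beta k) + n * (Q k / beta k) - t / beta k)) / Q k : ℝ) :
        UnitAddCircle) := by
    simp only [AddSubgroup.coe_add, Pi.add_apply, tr_apply]
    rw [← hr]
    change ((r : ℝ) : UnitAddCircle) + _ = _
    rw [← AddCircle.coe_add]
    have h3 : ((n : ℝ) : UnitAddCircle) = 0 := by
      rw [AddCircle.coe_eq_zero_iff]
      exact ⟨n, by simp⟩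
    have h4 : (r + (y * beta k + t) / Q k : ℝ) =
        beta k * (y - (-(r * Q k / beta k) + n * (Q k / beta k) - t / beta k)) / Q k + n := by
      field_simp
      ring
    rw [h4, AddCircle.coe_add, h3, add_zero]
  rw [h1]
  have h2 := norm_coe_le (beta k * (y - (-(r * Q k / beta k) + n * (Q k / beta k)
    - t / beta k)) / Q k)
  rw [abs_div, abs_mul, abs_of_pos hb, abs_of_pos hQ] at h2
  calc _ ≤ beta k * |y - (-(r * Q k / beta k) + n * (Q k / beta k) - t / beta k)| / Q k
        * 2 ^ (k + 4) := by gcongr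
    _ ≤ beta k * Rad k / Q k * 2 ^ (k + 4) := by gcongr
    _ = 1 := by unfold Rad; field_simp

lemma one_le_Q (k : ℕ) : 1 ≤ Q k := one_le_pow₀ (by norm_num)

lemma two_Q_le (k : ℕ) : 2 * Q k ≤ Q (k + 1) := by
  rw [Q_succ]
  have : (2 : ℝ) ^ 1 ≤ 2 ^ (2 * k + 1) := pow_le_pow_right₀ (by norm_num) (by omega)
  have := Q_pos k
  nlinarith

lemma sum_Q_le (k : ℕ) : ∑ i ∈ Finset.range (k + 1), Q i ≤ 2 * Q k := by
  induction k with
  | zero => simp; linarith [Q_pos 0]
  | succ k ih =>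
    rw [Finset.sum_range_succ]
    linarith [two_Q_le k]

lemma beta_succ_le (k : ℕ) : beta (k + 1) ≤ 4 * Q k := by
  unfold beta
  have h1 := sum_Q_le k
  have h2 := one_le_Q k
  have h3 : √2 ≤ 2 := by
    rw [Real.sqrt_le_left (by norm_num)]; norm_num
  linarith

lemma Rad_succ_ge (k : ℕ) : (2 : ℝ) ^ k / 64 ≤ Rad (k + 1) := by
  unfold Rad
  have hb := beta_pos (k + 1)
  have hQ := Q_pos k
  rw [le_div_iff₀ (by positivity), Q_succ]
  have h := beta_succ_le k
  calc (2 : ℝ) ^ k / 64 * (beta (k + 1) * 2 ^ (k + 1 + 4))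
      ≤ (2 : ℝ) ^ k / 64 * ((4 * Q k) * 2 ^ (k + 1 + 4)) := by gcongr
    _ = 2 ^ (2 * k + 1) * Q k := by ring

lemma beta_succ_ge (k : ℕ) : (2 : ℝ) ^ k ≤ beta (k + 1) := by
  have h1 : Q k ≤ beta (k + 1) := by
    rw [beta_succ]
    linarith [beta_pos k]
  refine le_trans ?_ h1
  unfold Q
  apply pow_le_pow_right₀ (by norm_num)
  nlinarith [Nat.zero_le k, sq_nonneg k, Nat.le_self_pow (two_ne_zero) k]

lemma exists_scale (R ε : ℝ) (hε : 0 < ε) : ∃ k, R ≤ Rad k ∧ 0 < 1 / beta k ∧ 1 / beta k ≤ ε := by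
  obtain ⟨n, hn⟩ := pow_unbounded_of_one_lt (max (64 * R) (1 / ε)) (one_lt_two (α := ℝ))
  refine ⟨n + 1, ?_, ?_, ?_⟩
  · refine le_trans ?_ (Rad_succ_ge n)
    have := (le_max_left _ _).trans hn.le
    linarith
  · have := beta_pos (n + 1); positivity
  · have h1 := (le_max_right _ _).trans hn.le
    have h2 := h1.trans (beta_succ_ge n)
    rw [div_le_iff₀ (beta_pos _)]
    rw [div_le_iff₀ hε] at h2
    linarith

/-- for every point of the solenoid there are wide and slow strips, near the origin at any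
prescribed time -/
lemma exists_strip (w : solenoid) (R ε : ℝ) (hε : 0 < ε) : ∃ v D : ℝ, 0 < v ∧ v ≤ ε ∧ 0 ≤ D ∧
    ∀ T : ℝ, ∃ c : ℝ, |c - v * T| ≤ D ∧
      ∀ (y : ℤ) (t : ℝ), |y - (c - v * t)| ≤ R → F (w + tr y t) = 1 := by
  obtain ⟨k, hk, h0, h1⟩ := exists_scale R ε hε
  obtain ⟨c, hc⟩ := strip w k
  have hP : 0 < Q k / beta k := div_pos (Q_pos k) (beta_pos k)
  refine ⟨1 / beta k, Q k / beta k, h0, h1, hP.le, fun T => ?_⟩
  set n : ℤ := ⌊(1 / beta k * T - c) / (Q k / beta k)⌋ with hn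
  refine ⟨c + n * (Q k / beta k), ?_, fun y t h => hc n y t ?_⟩
  · have h2 := Int.floor_le ((1 / beta k * T - c) / (Q k / beta k))
    have h3 := (Int.lt_floor_add_one ((1 / beta k * T - c) / (Q k / beta k))).le
    rw [← hn] at h2 h3
    rw [le_div_iff₀ hP] at h2
    rw [div_le_iff₀ hP] at h3
    rw [abs_le]
    constructor <;> linarith
  · rw [show t / beta k = 1 / beta k * t by ring]
    exact h.trans hk

/-- the projections of the solenoid -/
def proj (k : ℕ) : solenoid →+ UnitAddCircle :=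
  (Pi.evalAddMonoidHom (fun _ => UnitAddCircle) k).comp solenoid.subtype

lemma proj_surj (k : ℕ) : Function.Surjective (proj k) := by
  intro θ
  obtain ⟨r, rfl⟩ := QuotientAddGroup.mk_surjective θ
  refine ⟨tr 0 (r * Q k), ?_⟩
  change (tr 0 (r * Q k)).1 k = _
  rw [tr_apply]
  simp only [Int.cast_zero, zero_mul, zero_add]
  rw [mul_div_assoc, div_self (Q_pos k).ne', mul_one]

lemma measurePreserving_proj (k : ℕ) : MeasurePreserving (proj k) haar volume := by
  refine AddMonoidHom.measurePreserving ?_ (proj_surj k) ?_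
  · exact (continuous_apply k).comp continuous_subtype_val
  · simp

lemma haar_coord (k : ℕ) (r : ℝ) (hr1 : 2 * r ≤ 1) :
    haar {w | ‖w.1 k‖ ≤ r} = ENNReal.ofReal (2 * r) := by
  have h1 : {w : solenoid | ‖w.1 k‖ ≤ r} = proj k ⁻¹' (Metric.closedBall 0 r) := by
    ext w
    simp only [mem_preimage, mem_closedBall_zero_iff]
    rfl
  rw [h1, (measurePreserving_proj k).measure_preimage
    Metric.isClosed_closedBall.measurableSet.nullMeasurableSet]
  rw [AddCircle.volume_closedBall, min_eq_right hr1]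

lemma haar_support : haar {w | F w ≠ 0} ≤ ENNReal.ofReal (1 / 2) := by
  have h1 : {w : solenoid | F w ≠ 0} ⊆ ⋃ k, {w : solenoid | ‖w.1 k‖ ≤ (1 / 2) ^ (k + 3)} := by
    intro w hw
    by_contra hcon
    simp only [mem_iUnion, not_exists, mem_ofPred_eq, not_le] at hcon
    apply hw
    have : ∀ k, psi k (w.1 k) = 0 := by
      intro k
      apply psi_eq_zero
      have h2 := hcon k
      have h3 : ((1 : ℝ) / 2) ^ (k + 3) * 2 ^ (k + 4) = 2 := by
        rw [show k + 4 = (k + 3) + 1 by ring, pow_succ (2:ℝ), ← mul_assoc, ← mul_pow]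
        norm_num
      calc (2:ℝ) = ((1 : ℝ) / 2) ^ (k + 3) * 2 ^ (k + 4) := h3.symm
        _ ≤ ‖w.1 k‖ * 2 ^ (k + 4) := by gcongr
    unfold F
    simp [this]
  refine (measure_mono h1).trans ?_
  refine (measure_iUnion_le _).trans ?_
  have h4 : ∀ k, haar {w : solenoid | ‖w.1 k‖ ≤ (1 / 2) ^ (k + 3)}
      = ENNReal.ofReal ((1 / 2) ^ k / 4) := by
    intro k
    rw [haar_coord k _]
    · congr 1; ring
    · have : ((1 : ℝ) / 2) ^ (k + 3) ≤ (1 / 2) ^ 1 :=
        pow_le_pow_of_le_one (by norm_num) (by norm_num) (by omega)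
      linarith
  simp_rw [h4]
  have hs : Summable fun k : ℕ => ((1 : ℝ) / 2) ^ k / 4 :=
    (summable_geometric_of_lt_one (by norm_num) (by norm_num)).div_const 4
  rw [← ENNReal.ofReal_tsum_of_nonneg (fun k => by positivity) hs]
  apply ENNReal.ofReal_le_ofReal
  rw [tsum_div_const, tsum_geometric_of_lt_one (by norm_num) (by norm_num)]
  norm_num

lemma integrable_F : Integrable F haar := by
  refine Integrable.of_bound measurable_F.aestronglyMeasurable 1 (ae_of_all _ fun w => ?_)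
  rw [Real.norm_eq_abs, abs_of_nonneg (F_nonneg w)]
  exact F_le_one w

lemma integral_F_le : ∫ w, F w ∂haar ≤ 1 / 2 := by
  have hm : MeasurableSet {w | F w ≠ 0} := by
    exact measurable_F (measurableSet_singleton (0:ℝ)).compl
  have h1 : ∫ w, F w ∂haar ≤ ∫ w, indicator {w | F w ≠ 0} (fun _ => (1:ℝ)) w ∂haar := by
    refine integral_mono integrable_F ((integrable_const 1).indicator hm) fun w => ?_
    by_cases h : F w = 0
    · rw [h]; exact indicator_nonneg (fun _ _ => zero_le_one) _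
    · rw [indicator_of_mem (by exact h)]; exact F_le_one w
  refine h1.trans ?_
  rw [integral_indicator hm]
  simp only [integral_const, smul_eq_mul, mul_one, measureReal_restrict_apply_univ]
  unfold Measure.real
  refine ENNReal.toReal_le_of_le_ofReal (by norm_num) ?_
  exact haar_support

lemma haar_zero_ne : haar {w | F w = 0} ≠ 0 := by
  intro h
  have h1 := haar_support
  have h2 : haar univ ≤ haar {w | F w = 0} + haar {w | F w ≠ 0} := by
    refine (measure_mono ?_).trans (measure_union_le _ _)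
    intro w _
    by_cases h : F w = 0
    · left; exact h
    · right; exact h
  rw [h, zero_add, measure_univ] at h2
  have h3 := h2.trans h1
  rw [← ENNReal.ofReal_one, ENNReal.ofReal_le_ofReal_iff (by norm_num)] at h3
  norm_num at h3

lemma haar_one_ne : haar {w | F w = 1} ≠ 0 := by
  intro h
  have h1 : {w : solenoid | ‖w.1 0‖ ≤ 1 / 16} ⊆ {w | F w = 1} := by
    intro w hw
    simp only [mem_ofPred_eq] at hw ⊢
    refine le_antisymm (F_le_one w) ?_
    refine le_trans (le_of_eq ?_) (le_ciSup (bdd_psi w.1) 0)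
    symm
    apply psi_eq_one
    norm_num
    linarith
  have h2 := measure_mono_null h1 h
  rw [haar_coord 0 _ (by norm_num)] at h2
  norm_num at h2

end Pool.Agent.Lib.Helper97.PAM
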