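import Mathlib
import Pool.Agent.Lib.Helper97.PAM.Bump

open MeasureTheory Filter Set Topology
open scoped ENNReal

namespace Pool.Agent.Lib.Helper97.PAM

variable {d : ℕ}

/-- discrete Laplacian on `ℤ^d` -/
def lap (f : (Fin d → ℤ) → ℝ) (x : Fin d → ℤ) : ℝ :=
  ∑ i, ((f (x + Pi.single i 1) - f x) + (f (x - Pi.single i 1) - f x))

/-- summation by parts for finitely supported `φ`. -/
lemma tsum_lap (φ u : (Fin d → ℤ) → ℝ) (S : Finset (Fin d → ℤ)) (hS : ∀ x ∉ S, φ x = 0) :
    ∑' x, φ x * lap u x = ∑' x, lap φ x * u x := by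
  have hfin : ∀ (e : Fin d → ℤ) (w : (Fin d → ℤ) → ℝ), Summable fun x => φ (x + e) * w x := by
    intro e w
    refine summable_of_hasFiniteSupport ?_
    refine (((Finset.finite_toSet S).image (fun y => y - e))).subset ?_
    intro x hx
    rw [Function.mem_support] at hx
    have : φ (x + e) ≠ 0 := fun h => hx (by rw [h, zero_mul])
    refine ⟨x + e, ?_, by simp⟩
    by_contra hc
    exact this (hS _ hc)
  have hfin0 : ∀ (w : (Fin d → ℤ) → ℝ), Summable fun x => φ x * w x := by
    intro w; simpa using hfin 0 w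
  have hshift : ∀ e : Fin d → ℤ, ∑' x, φ x * u (x + e) = ∑' x, φ (x - e) * u x := by
    intro e
    rw [← (Equiv.addRight e).tsum_eq (fun x => φ (x - e) * u x)]
    simp
  have e1 : ∀ x, φ x * lap u x = ∑ i, ((φ x * u (x + Pi.single i 1) - φ x * u x)
      + (φ x * u (x + -Pi.single i 1) - φ x * u x)) := by
    intro x
    unfold lap
    rw [Finset.mul_sum]
    refine Finset.sum_congr rfl fun i _ => ?_
    rw [sub_eq_add_neg x]
    ring
  have e2 : ∀ x, lap φ x * u x = ∑ i, ((φ (x + Pi.single i 1) * u x - φ x * u x)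
      + (φ (x + -Pi.single i 1) * u x - φ x * u x)) := by
    intro x
    unfold lap
    rw [Finset.sum_mul]
    refine Finset.sum_congr rfl fun i _ => ?_
    rw [sub_eq_add_neg x]
    ring
  simp_rw [e1, e2]
  rw [Summable.tsum_finsetSum, Summable.tsum_finsetSum]
  · refine Finset.sum_congr rfl fun i _ => ?_
    have s1 := hfin0 (fun x => u (x + Pi.single i 1))
    have s2 := hfin0 (fun x => u (x + -Pi.single i 1))
    have s3 := hfin0 u
    have s4 := hfin (Pi.single i 1) u
    have s5 := hfin (-Pi.single i 1) u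
    rw [(s1.sub s3).tsum_add (s2.sub s3), s1.tsum_sub s3, s2.tsum_sub s3,
      (s4.sub s3).tsum_add (s5.sub s3), s4.tsum_sub s3, s5.tsum_sub s3, hshift, hshift]
    simp only [sub_neg_eq_add, ← sub_eq_add_neg]
    ring
  · intro i _
    exact ((hfin _ u).sub (hfin0 u)).add ((hfin _ u).sub (hfin0 u))
  · intro i _
    exact ((hfin0 _).sub (hfin0 u)).add ((hfin0 _).sub (hfin0 u))

/-- shifted coordinates -/
noncomputable def zc [NeZero d] (c : ℝ) (x : Fin d → ℤ) (i : Fin d) : ℝ :=
  x i - (if i = 0 then c else 0)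

/-- the moving test function -/
noncomputable def phi [NeZero d] (R c : ℝ) (x : Fin d → ℤ) : ℝ := ∏ i, bump R (zc c x i)

/-- product over the other coordinates -/
noncomputable def oth [NeZero d] (R c : ℝ) (x : Fin d → ℤ) (i : Fin d) : ℝ :=
  ∏ j ∈ Finset.univ.erase i, bump R (zc c x j)

lemma phi_nonneg [NeZero d] (R c : ℝ) (x : Fin d → ℤ) : 0 ≤ phi R c x :=
  Finset.prod_nonneg fun _ _ => bump_nonneg _ _

lemma oth_nonneg [NeZero d] (R c : ℝ) (x : Fin d → ℤ) (i : Fin d) : 0 ≤ oth R c x i :=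
  Finset.prod_nonneg fun _ _ => bump_nonneg _ _

lemma phi_eq [NeZero d] (R c : ℝ) (x : Fin d → ℤ) (i : Fin d) :
    phi R c x = bump R (zc c x i) * oth R c x i := by
  unfold phi oth
  exact (Finset.mul_prod_erase Finset.univ (fun j => bump R (zc c x j)) (Finset.mem_univ i)).symm

lemma oth_shift [NeZero d] (R c : ℝ) (x : Fin d → ℤ) (i : Fin d) (a : ℤ) :
    oth R c (x + Pi.single i a) i = oth R c x i := by
  unfold oth
  refine Finset.prod_congr rfl fun j hj => ?_
  have hj' : j ≠ i := Finset.ne_of_mem_erase hj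
  unfold zc
  simp [Pi.single_eq_of_ne hj']

lemma zc_shift [NeZero d] (c : ℝ) (x : Fin d → ℤ) (i : Fin d) (a : ℤ) :
    zc c (x + Pi.single i a) i = zc c x i + a := by
  unfold zc
  simp
  ring

lemma phi_shift [NeZero d] (R c : ℝ) (x : Fin d → ℤ) (i : Fin d) (a : ℤ) :
    phi R c (x + Pi.single i a) = bump R (zc c x i + a) * oth R c x i := by
  rw [phi_eq R c _ i, oth_shift, zc_shift]

lemma lap_phi [NeZero d] (R c : ℝ) (x : Fin d → ℤ) :
    lap (phi R c) x = ∑ i, (bump R (zc c x i + 1) + bump R (zc c x i - 1)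
      - 2 * bump R (zc c x i)) * oth R c x i := by
  unfold lap
  refine Finset.sum_congr rfl fun i _ => ?_
  have h1 := phi_shift R c x i 1
  have h2 := phi_shift R c x i (-1)
  have h3 : x - Pi.single i 1 = x + Pi.single i (-1) := by
    rw [sub_eq_add_neg, ← Pi.single_neg]
  rw [h3, h1, h2, phi_eq R c x i]
  push_cast
  rw [← sub_eq_add_neg]
  ring

lemma hasDerivAt_phi [NeZero d] (R c v s : ℝ) (x : Fin d → ℤ) :
    HasDerivAt (fun s => phi R (c + v * s) x)
      (-(v * bump' R (zc (c + v * s) x 0)) * oth R (c + v * s) x 0) s := by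
  have h1 : ∀ s', phi R (c + v * s') x = bump R (x 0 - (c + v * s')) * oth R (c + v * s) x 0 := by
    intro s'
    rw [phi_eq R _ x 0]
    have e1 : zc (c + v * s') x 0 = x 0 - (c + v * s') := by simp [zc]
    have e2 : oth R (c + v * s') x 0 = oth R (c + v * s) x 0 := by
      unfold oth
      refine Finset.prod_congr rfl fun j hj => ?_
      have hj' : j ≠ 0 := Finset.ne_of_mem_erase hj
      simp [zc, hj']
    rw [e1, e2]
  simp_rw [h1]
  refine HasDerivAt.mul_const ?_ _
  have h2 : HasDerivAt (fun s' : ℝ => (x 0 : ℝ) - (c + v * s')) (-v) s := by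
    have := (((hasDerivAt_id s).const_mul v).const_add c).const_sub (x 0 : ℝ)
    simpa using this
  have h3 := (hasDerivAt_bump R (x 0 - (c + v * s))).comp s h2
  refine h3.congr_deriv ?_
  simp only [zc, if_true]
  ring

lemma gen_ineq [NeZero d] {κ R η p : ℝ} (hκ : 0 < κ) (hp : 0 ≤ p) (hpκ : 6 * p ≤ κ) (hR : 3 ≤ R)
    (hη : 0 < η) (hcond : (12 * κ + 4 * p * R) ^ 2 ≤ 32 * η * κ * R ^ 2) {v : ℝ} (hv : |v| ≤ p)
    (c : ℝ) (x : Fin d → ℤ) :
    -(d * η * phi R c x) ≤ κ * lap (phi R c) x + -(v * bump' R (zc c x 0)) * oth R c x 0 := by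
  rw [lap_phi, Finset.mul_sum]
  have key : ∀ i, -(η * phi R c x) ≤ κ * ((bump R (zc c x i + 1) + bump R (zc c x i - 1)
      - 2 * bump R (zc c x i)) * oth R c x i)
      + (if i = 0 then -(v * bump' R (zc c x 0)) * oth R c x 0 else 0) := by
    intro i
    have h1 := bump_ineq hκ hp hpκ hR hη hcond (zc c x i)
    have ho := oth_nonneg R c x i
    have h2 := mul_le_mul_of_nonneg_right h1 ho
    rw [phi_eq R c x i]
    have h3 : -(p * |bump' R (zc c x i)|) * oth R c x i ≤
        (if i = 0 then -(v * bump' R (zc c x 0)) * oth R c x 0 else 0) := by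
      split_ifs with hi
      · subst hi
        refine mul_le_mul_of_nonneg_right ?_ ho
        have h4 : v * bump' R (zc c x 0) ≤ |v| * |bump' R (zc c x 0)| := by
          rw [← abs_mul]; exact le_abs_self _
        have h5 : |v| * |bump' R (zc c x 0)| ≤ p * |bump' R (zc c x 0)| := by
          gcongr
        linarith
      · have : 0 ≤ p * |bump' R (zc c x i)| * oth R c x i := by positivity
        linarith
    nlinarith
  have hsum := Finset.sum_le_sum fun i (_ : i ∈ (Finset.univ : Finset (Fin d))) => key i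
  rw [Finset.sum_add_distrib, Finset.sum_ite_eq' Finset.univ (0 : Fin d)] at hsum
  simp only [Finset.sum_const, Finset.card_univ, Fintype.card_fin, nsmul_eq_mul, Finset.mem_univ,
    if_true] at hsum
  linarith

lemma phi_eq_zero [NeZero d] {R c : ℝ} (hR : 0 ≤ R) {x : Fin d → ℤ} {i : Fin d}
    (h : |c| + R ≤ |(x i : ℝ)|) : phi R c x = 0 := by
  unfold phi
  refine Finset.prod_eq_zero (Finset.mem_univ i) ?_
  apply bump_of_le
  have h1 : R ≤ |zc c x i| := by
    unfold zc
    split_ifs
    · have := abs_sub_abs_le_abs_sub (x i : ℝ) c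
      linarith
    · rw [sub_zero]
      linarith [abs_nonneg c]
  have := sq_le_sq' (by linarith [abs_nonneg (zc c x i)]) h1
  rwa [sq_abs] at this

/-- the box `[-N,N]^d` -/
noncomputable def box (d : ℕ) (N : ℤ) : Finset (Fin d → ℤ) := Finset.Icc (fun _ => -N) (fun _ => N)

lemma mem_box {N : ℤ} {x : Fin d → ℤ} : x ∈ box d N ↔ ∀ i, |x i| ≤ N := by
  unfold box
  rw [Finset.mem_Icc, Pi.le_def, Pi.le_def]
  constructor
  · rintro ⟨h1, h2⟩ i
    rw [abs_le]; exact ⟨h1 i, h2 i⟩
  · intro h
    exact ⟨fun i => (abs_le.mp (h i)).1, fun i => (abs_le.mp (h i)).2⟩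

lemma phi_zero_off_box [NeZero d] {R c : ℝ} {N : ℤ} (hR : 0 ≤ R) (hN : |c| + R + 1 ≤ N)
    {x : Fin d → ℤ} (hx : x ∉ box d N) : phi R c x = 0 := by
  rw [mem_box] at hx
  push Not at hx
  obtain ⟨i, hi⟩ := hx
  refine phi_eq_zero (i := i) hR ?_
  have : (N : ℝ) < |(x i : ℝ)| := by
    rw [← Int.cast_abs]; exact_mod_cast hi
  linarith

lemma lap_phi_zero_off_box [NeZero d] {R c : ℝ} {N : ℤ} (hR : 0 ≤ R) (hN : |c| + R + 1 ≤ N)
    {x : Fin d → ℤ} (hx : x ∉ box d N) : lap (phi R c) x = 0 := by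
  have h0 := phi_zero_off_box hR hN hx
  rw [mem_box] at hx
  push Not at hx
  obtain ⟨i, hi⟩ := hx
  have hi' : (N : ℝ) < |(x i : ℝ)| := by
    rw [← Int.cast_abs]; exact_mod_cast hi
  have key : ∀ (j : Fin d) (a : ℤ), |a| ≤ 1 → phi R c (x + Pi.single j a) = 0 := by
    intro j a ha
    refine phi_eq_zero (i := i) hR ?_
    have h2 : |((Pi.single j a : Fin d → ℤ) i : ℝ)| ≤ 1 := by
      rw [← Int.cast_abs]
      by_cases hij : i = j
      · subst hij; rw [Pi.single_eq_same]; exact_mod_cast ha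
      · rw [Pi.single_eq_of_ne hij]; simp
    have h3 : |(x i : ℝ)| ≤ |(((x + Pi.single j a : Fin d → ℤ) i : ℤ) : ℝ)|
        + |((Pi.single j a : Fin d → ℤ) i : ℝ)| := by
      have h4 : (x i : ℝ) = (((x + Pi.single j a : Fin d → ℤ) i : ℤ) : ℝ)
          - ((Pi.single j a : Fin d → ℤ) i : ℝ) := by
        rw [Pi.add_apply]; push_cast; ring
      rw [h4]
      exact abs_sub _ _
    linarith
  unfold lap
  refine Finset.sum_eq_zero fun j _ => ?_
  have h3 : x - Pi.single j 1 = x + Pi.single j (-1) := by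
    rw [sub_eq_add_neg, ← Pi.single_neg]
  rw [h3, key j 1 (by simp), key j (-1) (by simp), h0]
  simp

/-- right-differentiable nonnegative solution of the parabolic Anderson equation on `[0,T]`. -/
structure SolOn (κ T : ℝ) (V u : (Fin d → ℤ) → ℝ → ℝ) : Prop where
  nonneg : ∀ x, ∀ t ∈ Icc 0 T, 0 ≤ u x t
  init : ∀ x, u x 0 = if x = 0 then 1 else 0
  cont : ∀ x, ContinuousOn (u x) (Icc 0 T)
  eqn : ∀ x, ∀ t ∈ Ico 0 T,
    HasDerivWithinAt (u x) (κ * lap (fun y => u y t) x + V x t * u x t) (Ici t) t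

lemma mono_of_right_deriv {g g' : ℝ → ℝ} {a b : ℝ} (hab : a ≤ b) (hg : ContinuousOn g (Icc a b))
    (hg' : ∀ s ∈ Ico a b, HasDerivWithinAt g (g' s) (Ici s) s) (hpos : ∀ s ∈ Ico a b, 0 ≤ g' s) :
    g a ≤ g b := by
  have := image_le_of_deriv_right_le_deriv_boundary (f := fun _ => g a) (f' := fun _ => 0)
    (a := a) (b := b) continuousOn_const (fun x _ => hasDerivWithinAt_const x _ _) (B := g)
    (B' := g') le_rfl hg hg' hpos
  exact this ⟨hab, le_rfl⟩

/-- growth of the tested mass inside a moving strip -/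
lemma mass_growth [NeZero d] {κ R η p γ : ℝ} (hκ : 0 < κ) (hp : 0 ≤ p) (hpκ : 6 * p ≤ κ)
    (hR : 3 ≤ R) (hη : 0 < η) (hcond : (12 * κ + 4 * p * R) ^ 2 ≤ 32 * η * κ * R ^ 2)
    {v : ℝ} (hv : |v| ≤ p) {c T : ℝ} {V u : (Fin d → ℤ) → ℝ → ℝ} (hu : SolOn κ T V u)
    (hV : ∀ x, ∀ t ∈ Icc 0 T, |x 0 - (c + v * t)| ≤ R → γ ≤ V x t)
    {a b : ℝ} (ha : 0 ≤ a) (hab : a ≤ b) (hb : b ≤ T) {N : ℤ}
    (hN : ∀ t ∈ Icc 0 T, |c + v * t| + R + 1 ≤ N) :
    (∑ x ∈ box d N, phi R (c + v * a) x * u x a) * Real.exp ((γ - d * η) * (b - a)) ≤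
      ∑ x ∈ box d N, phi R (c + v * b) x * u x b := by
  set r := γ - d * η with hr
  set m : ℝ → ℝ := fun s => ∑ x ∈ box d N, phi R (c + v * s) x * u x s with hm
  set m' : ℝ → ℝ := fun s => ∑ x ∈ box d N,
    ((-(v * bump' R (zc (c + v * s) x 0)) * oth R (c + v * s) x 0) * u x s +
      phi R (c + v * s) x * (κ * lap (fun y => u y s) x + V x s * u x s)) with hm'
  have hderiv : ∀ s ∈ Ico a b, HasDerivWithinAt m (m' s) (Ici s) s := by
    intro s hs
    refine HasDerivWithinAt.fun_sum fun x _ => ?_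
    exact (hasDerivAt_phi R c v s x).hasDerivWithinAt.mul
      (hu.eqn x s ⟨ha.trans hs.1, hs.2.trans_le hb⟩)
  have hcont : ContinuousOn m (Icc a b) := by
    refine continuousOn_finsetSum _ fun x _ => ?_
    refine ContinuousOn.mul ?_ ((hu.cont x).mono (Icc_subset_Icc ha hb))
    exact fun s _ => (hasDerivAt_phi R c v s x).continuousAt.continuousWithinAt
  have hineq : ∀ s ∈ Ico a b, r * m s ≤ m' s := by
    intro s hs
    have hsT : s ∈ Icc 0 T := ⟨ha.trans hs.1, (hs.2.trans_le hb).le⟩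
    have hNs := hN s hsT
    have hR0 : 0 ≤ R := by linarith
    have e1 : ∑ x ∈ box d N, phi R (c + v * s) x * lap (fun y => u y s) x =
        ∑ x ∈ box d N, lap (phi R (c + v * s)) x * u x s := by
      have h1 := tsum_lap (phi R (c + v * s)) (fun y => u y s) (box d N)
        (fun x hx => phi_zero_off_box hR0 hNs hx)
      rw [tsum_eq_sum (s := box d N), tsum_eq_sum (s := box d N)] at h1
      · exact h1
      · intro x hx
        rw [lap_phi_zero_off_box hR0 hNs hx, zero_mul]
      · intro x hx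
        rw [phi_zero_off_box hR0 hNs hx, zero_mul]
    have e2 : m' s = ∑ x ∈ box d N,
        ((κ * lap (phi R (c + v * s)) x + -(v * bump' R (zc (c + v * s) x 0)) *
          oth R (c + v * s) x 0) + phi R (c + v * s) x * V x s) * u x s := by
      have e3 : m' s = ∑ x ∈ box d N,
        (-(v * bump' R (zc (c + v * s) x 0)) * oth R (c + v * s) x 0) * u x s
        + κ * ∑ x ∈ box d N, phi R (c + v * s) x * lap (fun y => u y s) x
        + ∑ x ∈ box d N, phi R (c + v * s) x * V x s * u x s := by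
        rw [hm', Finset.mul_sum, ← Finset.sum_add_distrib, ← Finset.sum_add_distrib]
        refine Finset.sum_congr rfl fun x _ => ?_
        ring
      rw [e3, e1, Finset.mul_sum, ← Finset.sum_add_distrib, ← Finset.sum_add_distrib]
      refine Finset.sum_congr rfl fun x _ => ?_
      ring
    rw [e2, hm, Finset.mul_sum]
    refine Finset.sum_le_sum fun x _ => ?_
    have hux := hu.nonneg x s hsT
    rw [← mul_assoc]
    refine mul_le_mul_of_nonneg_right ?_ hux
    have h2 := gen_ineq hκ hp hpκ hR hη hcond hv (c + v * s) x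
    have h3 : γ * phi R (c + v * s) x ≤ phi R (c + v * s) x * V x s := by
      by_cases h4 : |x 0 - (c + v * s)| ≤ R
      · rw [mul_comm]
        exact mul_le_mul_of_nonneg_left (hV x s hsT h4) (phi_nonneg _ _ _)
      · have h5 : phi R (c + v * s) x = 0 := by
          unfold phi
          refine Finset.prod_eq_zero (Finset.mem_univ 0) ?_
          apply bump_of_le
          push Not at h4
          have h6 : zc (c + v * s) x 0 = x 0 - (c + v * s) := by simp [zc]
          rw [h6]
          have := sq_le_sq' (by linarith [abs_nonneg ((x 0 : ℝ) - (c + v * s))]) h4.le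
          rwa [sq_abs] at this
        rw [h5]; simp
    rw [hr]
    linarith
  -- multiply by the exponential
  have hexp : ∀ s, HasDerivAt (fun s => Real.exp (-(r * s))) (-(r * Real.exp (-(r * s)))) s := by
    intro s
    have h1 : HasDerivAt (fun s : ℝ => -(r * s)) (-r) s := by
      have := ((hasDerivAt_id s).const_mul (-r))
      simp only [id, mul_one, neg_mul] at this
      exact this
    have h2 := h1.exp
    refine h2.congr_deriv ?_
    ring
  have hmono := mono_of_right_deriv (g := fun s => m s * Real.exp (-(r * s)))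
    (g' := fun s => m' s * Real.exp (-(r * s)) + m s * (-(r * Real.exp (-(r * s))))) hab
    (hcont.mul (by fun_prop))
    (fun s hs => (hderiv s hs).mul (hexp s).hasDerivWithinAt)
    (fun s hs => by
      have := hineq s hs
      have hE := Real.exp_pos (-(r * s))
      have : 0 ≤ (m' s - r * m s) * Real.exp (-(r * s)) := mul_nonneg (by linarith) hE.le
      linarith)
  have hE := Real.exp_pos (r * b)
  have h7 := mul_le_mul_of_nonneg_right hmono hE.le
  simp only [mul_assoc, ← Real.exp_add] at h7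
  have e4 : -(r * b) + r * b = 0 := by ring
  have e5 : -(r * a) + r * b = r * (b - a) := by ring
  rw [e4, e5, Real.exp_zero, mul_one] at h7
  exact h7

lemma lap_eq (f : (Fin d → ℤ) → ℝ) (x : Fin d → ℤ) :
    lap f x = ∑ i, (f (x + Pi.single i 1) + f (x - Pi.single i 1)) - 2 * d * f x := by
  unfold lap
  have : (2 : ℝ) * d * f x = ∑ _i : Fin d, 2 * f x := by
    simp; ring
  rw [this, ← Finset.sum_sub_distrib]
  refine Finset.sum_congr rfl fun i _ => ?_
  ring

lemma lap_ge {f : (Fin d → ℤ) → ℝ} (hf : ∀ y, 0 ≤ f y) (x : Fin d → ℤ) :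
    -(2 * d * f x) ≤ lap f x := by
  rw [lap_eq]
  have : 0 ≤ ∑ i, (f (x + Pi.single i 1) + f (x - Pi.single i 1)) :=
    Finset.sum_nonneg fun i _ => add_nonneg (hf _) (hf _)
  linarith

lemma lap_ge_nbr {f : (Fin d → ℤ) → ℝ} (hf : ∀ y, 0 ≤ f y) (x z : Fin d → ℤ) (i : Fin d)
    (hz : z = x + Pi.single i 1 ∨ z = x - Pi.single i 1) :
    f z - 2 * d * f x ≤ lap f x := by
  rw [lap_eq]
  have h1 : f (x + Pi.single i 1) + f (x - Pi.single i 1) ≤
      ∑ i, (f (x + Pi.single i 1) + f (x - Pi.single i 1)) :=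
    Finset.single_le_sum (f := fun i => f (x + Pi.single i 1) + f (x - Pi.single i 1))
      (fun i _ => add_nonneg (hf _) (hf _)) (Finset.mem_univ i)
  have h2 := hf (x + Pi.single i 1)
  have h3 := hf (x - Pi.single i 1)
  rcases hz with rfl | rfl <;> linarith

lemma exists_step (w : Fin d → ℤ) (n : ℕ) (hw : ∑ i, |w i| = n + 1) :
    ∃ (w' : Fin d → ℤ) (i : Fin d), ∑ i, |w' i| = n ∧
      (w' = w + Pi.single i 1 ∨ w' = w - Pi.single i 1) := by
  have h1 : ∃ i, w i ≠ 0 := by
    by_contra hcon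
    push Not at hcon
    have : ∑ i, |w i| = 0 := Finset.sum_eq_zero fun i _ => by rw [hcon i]; simp
    omega
  obtain ⟨i, hi⟩ := h1
  have hsplit : ∀ w'' : Fin d → ℤ, ∑ j, |w'' j| = |w'' i| + ∑ j ∈ Finset.univ.erase i, |w'' j| :=
    fun w'' => (Finset.add_sum_erase Finset.univ (fun j => |w'' j|) (Finset.mem_univ i)).symm
  have hoth : ∀ a : ℤ, ∑ j ∈ Finset.univ.erase i, |(w + Pi.single i a : Fin d → ℤ) j|
      = ∑ j ∈ Finset.univ.erase i, |w j| := by
    intro a
    refine Finset.sum_congr rfl fun j hj => ?_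
    have hj' : j ≠ i := Finset.ne_of_mem_erase hj
    simp [Pi.single_eq_of_ne hj']
  rcases lt_or_gt_of_ne hi with h | h
  · refine ⟨w + Pi.single i 1, i, ?_, Or.inl rfl⟩
    rw [hsplit, hoth 1]
    rw [hsplit] at hw
    have e1 : |(w + Pi.single i 1 : Fin d → ℤ) i| = |w i| - 1 := by
      simp only [Pi.add_apply, Pi.single_eq_same]
      rw [abs_of_neg h]
      rw [abs_of_nonpos (by omega)]
      ring
    rw [e1]; omega
  · have e0 : w - Pi.single i 1 = w + Pi.single i (-1) := by
      rw [sub_eq_add_neg, ← Pi.single_neg]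
    refine ⟨w - Pi.single i 1, i, ?_, Or.inr rfl⟩
    rw [e0, hsplit, hoth (-1)]
    rw [hsplit] at hw
    have e1 : |(w + Pi.single i (-1) : Fin d → ℤ) i| = |w i| - 1 := by
      simp only [Pi.add_apply, Pi.single_eq_same]
      rw [abs_of_pos h]
      rw [abs_of_nonneg (by omega)]
      ring
    rw [e1]; omega

/-- propagation along a path of `n` steps -/
lemma chain {κ T : ℝ} (hκ : 0 ≤ κ) {V u : (Fin d → ℤ) → ℝ → ℝ} (hu : SolOn κ T V u)
    (hV : ∀ x, ∀ t ∈ Icc 0 T, 0 ≤ V x t) (n : ℕ) :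
    ∀ (w y : Fin d → ℤ), ∑ i, |w i| = n → ∀ a s : ℝ, 0 ≤ a → 0 ≤ s → a + s ≤ T →
      (κ * s) ^ n / (Nat.factorial n) * u y a ≤ Real.exp (2 * d * κ * s) * u (y + w) (a + s) := by
  have hderiv : ∀ (x : Fin d → ℤ) (a s : ℝ), 0 ≤ a → 0 ≤ s → a + s < T →
      HasDerivWithinAt (fun s => Real.exp (2 * d * κ * s) * u x (a + s))
        (Real.exp (2 * d * κ * s) * (2 * d * κ * u x (a + s) +
          (κ * lap (fun y => u y (a + s)) x + V x (a + s) * u x (a + s)))) (Ici s) s := by
    intro x a s ha hs has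
    have h1 : HasDerivAt (fun s : ℝ => Real.exp (2 * d * κ * s))
        (Real.exp (2 * d * κ * s) * (2 * d * κ)) s := by
      have := ((hasDerivAt_id s).const_mul (2 * d * κ)).exp
      simpa using this
    have h2 : HasDerivWithinAt (fun s => u x (a + s))
        (κ * lap (fun y => u y (a + s)) x + V x (a + s) * u x (a + s)) (Ici s) s := by
      have h3 := hu.eqn x (a + s) ⟨by linarith, has⟩
      have h4 : HasDerivWithinAt (fun s : ℝ => a + s) 1 (Ici s) s :=
        ((hasDerivAt_id s).const_add a).hasDerivWithinAt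
      have h5 := h3.scomp s h4 (fun z hz => by simpa using hz)
      exact h5.congr_deriv (by simp)
    refine (h1.hasDerivWithinAt.mul h2).congr_deriv ?_
    ring
  have hcont : ∀ (x : Fin d → ℤ) (a b : ℝ), 0 ≤ a → a + b ≤ T →
      ContinuousOn (fun s => Real.exp (2 * d * κ * s) * u x (a + s)) (Icc 0 b) := by
    intro x a b ha hab
    refine ContinuousOn.mul (by fun_prop) ?_
    refine (hu.cont x).comp (by fun_prop) ?_
    intro s hs
    exact ⟨by linarith [hs.1], by linarith [hs.2]⟩
  induction n with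
  | zero =>
    intro w y hw a s ha hs has
    have hw0 : w = 0 := by
      funext i
      have h1 : |w i| ≤ ∑ i, |w i| :=
        Finset.single_le_sum (f := fun i => |w i|) (fun i _ => abs_nonneg _) (Finset.mem_univ i)
      rw [hw] at h1
      simpa using h1
    subst hw0
    have hm := mono_of_right_deriv hs (hcont y a s ha has)
      (fun r hr => hderiv y a r ha hr.1 (by linarith [hr.2])) (fun r hr => by
        refine mul_nonneg (Real.exp_pos _).le ?_
        have hm : a + r ∈ Icc 0 T := ⟨by linarith [hr.1], by linarith [hr.2]⟩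
        have h1 := lap_ge (f := fun z => u z (a + r)) (fun z => hu.nonneg z _ hm) y
        have h2 := mul_le_mul_of_nonneg_left h1 hκ
        have h3 := mul_nonneg (hV y _ hm) (hu.nonneg y _ hm)
        nlinarith)
    simpa using hm
  | succ n ih =>
    intro w y hw a s ha hs has
    obtain ⟨w', i, hw', hnbr⟩ := exists_step w n (by exact_mod_cast hw)
    have hg : ∀ r : ℝ, HasDerivAt (fun r : ℝ => (κ * r) ^ (n + 1) / (Nat.factorial (n + 1)) * u y a)
        (κ * ((κ * r) ^ n / (Nat.factorial n) * u y a)) r := by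
      intro r
      have h1 : HasDerivAt (fun r : ℝ => (κ * r) ^ (n + 1)) ((n + 1 : ℕ) * (κ * r) ^ n * κ) r := by
        have h2 := ((hasDerivAt_id r).const_mul κ).pow (n + 1)
        exact h2.congr_deriv (by simp)
      refine ((h1.div_const _).mul_const _).congr_deriv ?_
      rw [Nat.factorial_succ]
      push_cast
      field_simp
    have hm := mono_of_right_deriv (g := fun r => Real.exp (2 * d * κ * r) * u (y + w) (a + r)
        - (κ * r) ^ (n + 1) / (Nat.factorial (n + 1)) * u y a) hs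
      ((hcont (y + w) a s ha has).sub (fun r _ => (hg r).continuousAt.continuousWithinAt))
      (fun r hr => (hderiv (y + w) a r ha hr.1 (by linarith [hr.2])).sub
        (hg r).hasDerivWithinAt) (fun r hr => by
        have hm : a + r ∈ Icc 0 T := ⟨by linarith [hr.1], by linarith [hr.2]⟩
        have hnbr' : y + w' = (y + w) + Pi.single i 1 ∨ y + w' = (y + w) - Pi.single i 1 := by
          rcases hnbr with h | h
          · left; rw [h]; abel
          · right; rw [h]; abel
        have h1 := lap_ge_nbr (f := fun z => u z (a + r)) (fun z => hu.nonneg z _ hm) (y + w)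
          (y + w') i hnbr'
        have h2 := mul_le_mul_of_nonneg_left h1 hκ
        have h3 := mul_nonneg (hV (y + w) _ hm) (hu.nonneg (y + w) _ hm)
        have h4 := ih w' y hw' a r ha hr.1 hm.2
        have h5 := mul_le_mul_of_nonneg_left h4 hκ
        have hE := Real.exp_pos (2 * d * κ * r)
        have h6 : κ * u (y + w') (a + r) ≤ 2 * d * κ * u (y + w) (a + r) +
          (κ * lap (fun y => u y (a + r)) (y + w) + V (y + w) (a + r) * u (y + w) (a + r)) := by
          nlinarith
        have h7 := mul_le_mul_of_nonneg_left h6 hE.le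
        nlinarith)
    have h0 : 0 ≤ u (y + w) a := hu.nonneg _ _ ⟨ha, by linarith⟩
    simp only [mul_zero, Real.exp_zero, add_zero, one_mul] at hm
    rw [zero_pow (Nat.succ_ne_zero n), zero_div, zero_mul, sub_zero] at hm
    linarith

end Pool.Agent.Lib.Helper97.PAM
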