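import Mathlib
import Pool.Agent.Lib.Helper97.PAM.Lower

open MeasureTheory Filter Set Topology
open scoped ENNReal

namespace Pool.Agent.Lib.Helper97.PAM

variable {d : ℕ}

lemma phi_le [NeZero d] (R c : ℝ) (x : Fin d → ℤ) : phi R c x ≤ (R ^ 4) ^ d := by
  unfold phi
  calc ∏ i, bump R (zc c x i) ≤ ∏ _i : Fin d, R ^ 4 :=
        Finset.prod_le_prod (fun i _ => bump_nonneg _ _) (fun i _ => bump_le _ _)
    _ = (R ^ 4) ^ d := by simp

lemma card_box {N : ℤ} (hN : 0 ≤ N) : ((box d N).card : ℝ) = (2 * N + 1) ^ d := by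
  unfold box
  rw [Pi.card_Icc]
  simp only [Int.card_Icc, Finset.prod_const, Finset.card_univ, Fintype.card_fin]
  push_cast
  congr 1
  have : ((N + 1 - -N).toNat : ℤ) = 2 * N + 1 := by
    rw [Int.toNat_of_nonneg (by omega)]; ring
  exact_mod_cast this

/-- one step of the estimate: growth inside the strip followed by a return to the origin -/
lemma lower_step [NeZero d] {κ R η p γ : ℝ} (hκ : 0 < κ) (hp : 0 ≤ p) (hpκ : 6 * p ≤ κ)
    (hR : 3 ≤ R) (hη : 0 < η) (hcond : (12 * κ + 4 * p * R) ^ 2 ≤ 32 * η * κ * R ^ 2)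
    {v : ℝ} (hv : |v| ≤ p) {c D T : ℝ} (hc : |c| ≤ D) {V u : (Fin d → ℤ) → ℝ → ℝ}
    (hu : SolOn κ T V u) (hV0 : ∀ x, ∀ t ∈ Icc 0 T, 0 ≤ V x t)
    (hV : ∀ x, ∀ t ∈ Icc 0 T, |x 0 - (c + v * t)| ≤ R → γ ≤ V x t)
    {S : ℝ} (hS : 0 ≤ S) (hST : S + 1 ≤ T) (hSbig : D + p * T + d * R ≤ κ * S) {N1 : ℕ}
    (hN1 : D + p + 1 ≤ N1) {N : ℤ} (hN : D + p * T + R + 1 ≤ N) :
    Real.exp (-(2 * d * κ)) * ((min κ 1) ^ N1 / (Nat.factorial N1)) *
      Real.exp ((γ - d * η) * (T - S - 1)) ≤
    (2 * N + 1) ^ d * (R ^ 4) ^ d * (Real.exp (2 * d * κ * S) * u 0 T) := by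
  have hD : 0 ≤ D := (abs_nonneg c).trans hc
  have hT : 0 ≤ T := by linarith
  have hcs : ∀ t ∈ Icc 0 T, |c + v * t| ≤ D + p * T := by
    intro t ht
    calc |c + v * t| ≤ |c| + |v * t| := abs_add_le _ _
      _ = |c| + |v| * t := by rw [abs_mul, abs_of_nonneg ht.1]
      _ ≤ D + p * T := by
        have h1 := ht.1
        have h2 := ht.2
        gcongr
  have hNs : ∀ t ∈ Icc 0 T, |c + v * t| + R + 1 ≤ N := fun t ht => by
    have := hcs t ht; linarith
  have hN0 : (0 : ℤ) ≤ N := by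
    have : (0 : ℝ) ≤ N := by
      have : 0 ≤ p * T := mul_nonneg hp hT
      linarith
    exact_mod_cast this
  -- the mass at time 1
  have h1mem : (1 : ℝ) ∈ Icc 0 T := ⟨by norm_num, by linarith⟩
  set x1 : Fin d → ℤ := Pi.single 0 (round (c + v * 1)) with hx1
  have hround : |(round (c + v * 1) : ℝ)| ≤ |c + v * 1| + 1 / 2 := by
    have h1 := abs_sub_round (c + v * 1)
    have h2 : |(round (c + v * 1) : ℝ)| ≤ |c + v * 1| + |c + v * 1 - round (c + v * 1)| := by
      have h3 : (round (c + v * 1) : ℝ) = (c + v * 1) - (c + v * 1 - round (c + v * 1)) := by ring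
      calc |(round (c + v * 1) : ℝ)| = |(c + v * 1) - (c + v * 1 - round (c + v * 1))| := by
            rw [← h3]
        _ ≤ _ := abs_sub _ _
    linarith
  have hc1 : |c + v * 1| ≤ D + p := by
    calc |c + v * 1| ≤ |c| + |v * 1| := abs_add_le _ _
      _ ≤ D + p := by rw [mul_one]; gcongr
  have hphi1 : 1 ≤ phi R (c + v * 1) x1 := by
    refine le_trans (le_of_eq (Finset.prod_const_one (s := (Finset.univ : Finset (Fin d)))).symm)
      (Finset.prod_le_prod (fun _ _ => zero_le_one) fun i _ => ?_)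
    have hz : (zc (c + v * 1) x1 i) ^ 2 ≤ 1 / 4 := by
      unfold zc
      by_cases hi : i = 0
      · subst hi
        rw [if_pos rfl, hx1, Pi.single_eq_same]
        have h1 := abs_sub_round (c + v * 1)
        rw [abs_sub_comm] at h1
        have := sq_le_sq' (by linarith [abs_nonneg ((round (c + v * 1) : ℝ) - (c + v * 1))]) h1
        rw [sq_abs] at this
        norm_num at this ⊢
        linarith
      · rw [if_neg hi, hx1, Pi.single_eq_of_ne hi]
        norm_num
    have h9 : 9 ≤ R ^ 2 := by nlinarith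
    rw [bump_of_abs_lt (by linarith)]
    exact one_le_pow₀ (by linarith)
  have hx1box : x1 ∈ box d N := by
    rw [mem_box]
    intro i
    by_cases hi : i = 0
    · subst hi
      rw [hx1, Pi.single_eq_same]
      have : (|round (c + v * 1)| : ℝ) ≤ N := by
        have := hNs 1 h1mem
        linarith
      exact_mod_cast this
    · rw [hx1, Pi.single_eq_of_ne hi]; simpa using hN0
  have hu1 : Real.exp (-(2 * d * κ)) * ((min κ 1) ^ N1 / (Nat.factorial N1)) ≤ u x1 1 := by
    have hsum : ∑ i, |x1 i| = ((round (c + v * 1)).natAbs : ℤ) := by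
      rw [Finset.sum_eq_single (0 : Fin d)]
      · rw [hx1, Pi.single_eq_same]; simp
      · intro i _ hi; rw [hx1, Pi.single_eq_of_ne hi]; simp
      · simp
    have hch := chain hκ.le hu hV0 _ x1 0 hsum 0 1 le_rfl zero_le_one (by linarith)
    set n := (round (c + v * 1)).natAbs with hn
    have hnN : n ≤ N1 := by
      have h1 : (n : ℝ) = |(round (c + v * 1) : ℝ)| := by
        rw [hn, Nat.cast_natAbs]; push_cast; rfl
      have : (n : ℝ) ≤ N1 := by rw [h1]; linarith
      exact_mod_cast this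
    rw [hu.init 0, if_pos rfl, zero_add, zero_add, mul_one, mul_one, mul_one] at hch
    have hk0 : 0 < min κ 1 := lt_min hκ one_pos
    have h2 : (min κ 1) ^ N1 / (Nat.factorial N1) ≤ κ ^ n / (Nat.factorial n) := by
      have h3 : (min κ 1) ^ N1 ≤ κ ^ n := by
        calc (min κ 1) ^ N1 ≤ (min κ 1) ^ n := pow_le_pow_of_le_one hk0.le (min_le_right _ _) hnN
          _ ≤ κ ^ n := pow_le_pow_left₀ hk0.le (min_le_left _ _) n
      have h4 : (Nat.factorial n : ℝ) ≤ Nat.factorial N1 := by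
        exact_mod_cast Nat.factorial_le hnN
      have h5 : (0 : ℝ) < Nat.factorial n := by exact_mod_cast Nat.factorial_pos n
      gcongr
    have hE := Real.exp_pos (-(2 * d * κ))
    calc _ ≤ Real.exp (-(2 * d * κ)) * (κ ^ n / (Nat.factorial n)) := by gcongr
      _ ≤ Real.exp (-(2 * d * κ)) * (Real.exp (2 * d * κ) * u x1 1) := by gcongr
      _ = u x1 1 := by rw [← mul_assoc, ← Real.exp_add]; simp
  -- growth
  have hgrow := mass_growth hκ hp hpκ hR hη hcond hv hu hV (a := 1) (b := T - S) zero_le_one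
    (by linarith) (by linarith) hNs
  have hm1 : u x1 1 ≤ ∑ x ∈ box d N, phi R (c + v * 1) x * u x 1 := by
    have h1 : phi R (c + v * 1) x1 * u x1 1 ≤ ∑ x ∈ box d N, phi R (c + v * 1) x * u x 1 :=
      Finset.single_le_sum (f := fun x => phi R (c + v * 1) x * u x 1)
        (fun x _ => mul_nonneg (phi_nonneg _ _ _) (hu.nonneg x 1 h1mem)) hx1box
    have h2 := hu.nonneg x1 1 h1mem
    nlinarith
  -- return
  have hTS : T - S ∈ Icc 0 T := ⟨by linarith, by linarith⟩
  have hu0 : 0 ≤ u 0 T := hu.nonneg 0 T ⟨hT, le_rfl⟩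
  have hret : ∀ x, phi R (c + v * (T - S)) x * u x (T - S) ≤
      phi R (c + v * (T - S)) x * (Real.exp (2 * d * κ * S) * u 0 T) := by
    intro x
    by_cases hx : phi R (c + v * (T - S)) x = 0
    · rw [hx]; simp
    refine mul_le_mul_of_nonneg_left ?_ (phi_nonneg _ _ _)
    have hxi : ∀ i, |(x i : ℝ)| ≤ (if i = 0 then D + p * T else 0) + R := by
      intro i
      by_contra hcon
      push Not at hcon
      apply hx
      unfold phi
      refine Finset.prod_eq_zero (Finset.mem_univ i) ?_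
      apply bump_of_le
      have hz : R ≤ |zc (c + v * (T - S)) x i| := by
        unfold zc
        split_ifs at hcon ⊢ with hi
        · have h1 := abs_sub_abs_le_abs_sub (x i : ℝ) (c + v * (T - S))
          have h2 := hcs (T - S) hTS
          linarith
        · rw [sub_zero]; linarith
      have := sq_le_sq' (by linarith [abs_nonneg (zc (c + v * (T - S)) x i)]) hz
      rwa [sq_abs] at this
    have hsumx : (∑ i, |(x i : ℝ)|) ≤ D + p * T + d * R := by
      calc (∑ i, |(x i : ℝ)|) ≤ ∑ i : Fin d, ((if i = 0 then D + p * T else 0) + R) :=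
            Finset.sum_le_sum fun i _ => hxi i
        _ = D + p * T + d * R := by
          rw [Finset.sum_add_distrib, Finset.sum_ite_eq' Finset.univ (0 : Fin d)]
          simp
    set n := ∑ i, (x i).natAbs with hn
    have hnabs : ∑ i, |(-x) i| = (n : ℤ) := by
      rw [hn]; push_cast
      refine Finset.sum_congr rfl fun i _ => ?_
      rw [Pi.neg_apply, abs_neg]
    have hnr : (n : ℝ) = ∑ i, |(x i : ℝ)| := by
      rw [hn]; push_cast
      refine Finset.sum_congr rfl fun i _ => ?_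
      rw [Nat.cast_natAbs]; push_cast; rfl
    have hch := chain hκ.le hu hV0 n (-x) x hnabs (T - S) S hTS.1 hS (by linarith)
    rw [add_neg_cancel, sub_add_cancel] at hch
    have hge : 1 ≤ (κ * S) ^ n / (Nat.factorial n) := by
      rw [one_le_div (by exact_mod_cast Nat.factorial_pos n)]
      have h1 : (Nat.factorial n : ℝ) ≤ (n : ℝ) ^ n := by exact_mod_cast Nat.factorial_le_pow n
      have h2 : (n : ℝ) ^ n ≤ (κ * S) ^ n := by
        refine pow_le_pow_left₀ (by positivity) ?_ n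
        rw [hnr]; linarith
      exact h1.trans h2
    have h3 := hu.nonneg x (T - S) hTS
    nlinarith
  have hsumret : ∑ x ∈ box d N, phi R (c + v * (T - S)) x * u x (T - S) ≤
      (2 * N + 1) ^ d * (R ^ 4) ^ d * (Real.exp (2 * d * κ * S) * u 0 T) := by
    have hEu : 0 ≤ Real.exp (2 * d * κ * S) * u 0 T := mul_nonneg (Real.exp_pos _).le hu0
    calc _ ≤ ∑ x ∈ box d N, (R ^ 4) ^ d * (Real.exp (2 * d * κ * S) * u 0 T) := by
          refine Finset.sum_le_sum fun x _ => (hret x).trans ?_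
          exact mul_le_mul_of_nonneg_right (phi_le _ _ _) hEu
      _ = _ := by
          rw [Finset.sum_const, nsmul_eq_mul, card_box hN0]; ring
  calc _ ≤ u x1 1 * Real.exp ((γ - d * η) * (T - S - 1)) := by gcongr
    _ ≤ (∑ x ∈ box d N, phi R (c + v * 1) x * u x 1) *
        Real.exp ((γ - d * η) * (T - S - 1)) := by gcongr
    _ ≤ _ := hgrow
    _ ≤ _ := hsumret

lemma eventually_poly_le_exp (n : ℕ) (a b K A δ : ℝ) (ha : 0 ≤ a) (hb : 0 ≤ b) (hK : 0 < K)
    (hA : 0 < A) (hδ : 0 < δ) : ∀ᶠ T in atTop, (a * T + b) ^ n * K ≤ A * Real.exp (δ * T) := by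
  have h1 := Real.tendsto_pow_mul_exp_neg_atTop_nhds_zero n
  have h2 : Tendsto (fun T : ℝ => δ * T) atTop atTop := tendsto_id.const_mul_atTop hδ
  have h3 := h1.comp h2
  have hc : 0 < A / (((a + b) / δ) ^ n * K + 1) := by positivity
  have h4 := h3.eventually (gt_mem_nhds hc)
  filter_upwards [h4, eventually_ge_atTop 1] with T hT hT1
  simp only [Function.comp_apply] at hT
  have h5 : a * T + b ≤ (a + b) * T := by nlinarith
  have h6 : (a * T + b) ^ n ≤ ((a + b) / δ) ^ n * (δ * T) ^ n := by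
    rw [← mul_pow]
    refine pow_le_pow_left₀ (by positivity) ?_ n
    rw [show (a + b) / δ * (δ * T) = (a + b) * T by field_simp]
    exact h5
  have hE := Real.exp_pos (δ * T)
  have h7 : (δ * T) ^ n * 1 ≤ A / (((a + b) / δ) ^ n * K + 1) * Real.exp (δ * T) := by
    have h8 : (δ * T) ^ n * Real.exp (-(δ * T)) * Real.exp (δ * T) ≤
      A / (((a + b) / δ) ^ n * K + 1) * Real.exp (δ * T) := by gcongr
    rw [mul_assoc, ← Real.exp_add, neg_add_cancel, Real.exp_zero] at h8
    exact h8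
  rw [mul_one] at h7
  have hq : 0 ≤ ((a + b) / δ) ^ n := by positivity
  calc (a * T + b) ^ n * K ≤ ((a + b) / δ) ^ n * (δ * T) ^ n * K := by gcongr
    _ ≤ ((a + b) / δ) ^ n * (A / (((a + b) / δ) ^ n * K + 1) * Real.exp (δ * T)) * K := by
      gcongr
    _ = (((a + b) / δ) ^ n * K) / (((a + b) / δ) ^ n * K + 1) * (A * Real.exp (δ * T)) := by
      field_simp
    _ ≤ 1 * (A * Real.exp (δ * T)) := by
      gcongr
      rw [div_le_one (by positivity)]
      linarith
    _ = A * Real.exp (δ * T) := one_mul _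

/-- asymptotic lower bound along a wide slow strip -/
theorem lower_asymp [NeZero d] {κ γ δ : ℝ} (hκ : 0 < κ) (hγ : 0 ≤ γ) (hδ : 0 < δ) :
    ∃ R p : ℝ, 0 < p ∧ ∀ D : ℝ, 0 ≤ D → ∀ᶠ T in atTop, ∀ (c v : ℝ)
      (V u : (Fin d → ℤ) → ℝ → ℝ), |c| ≤ D → |v| ≤ p → SolOn κ T V u →
      (∀ x, ∀ t ∈ Icc 0 T, 0 ≤ V x t) →
      (∀ x, ∀ t ∈ Icc 0 T, |x 0 - (c + v * t)| ≤ R → γ ≤ V x t) →
      Real.exp ((γ - δ) * T) ≤ u 0 T := by
  have hd : (0 : ℝ) < d := by exact_mod_cast Nat.pos_of_ne_zero (NeZero.ne d)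
  set ε : ℝ := min (1 / 2) (δ / (4 * (γ + 2 * d * κ + 1))) with hε
  have hden : 0 < 4 * (γ + 2 * d * κ + 1) := by positivity
  have hε0 : 0 < ε := lt_min (by norm_num) (by positivity)
  have hε1 : ε ≤ 1 / 2 := min_le_left _ _
  have hε2 : ε * (γ + 2 * d * κ) ≤ δ / 4 := by
    have h1 : ε ≤ δ / (4 * (γ + 2 * d * κ + 1)) := min_le_right _ _
    rw [le_div_iff₀ hden] at h1
    nlinarith
  set η : ℝ := δ / (4 * d) with hη
  have hη0 : 0 < η := by positivity
  have hdη : d * η = δ / 4 := by rw [hη]; field_simp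
  set q : ℝ := √(32 * η * κ) with hq
  have hq0 : 0 < q := Real.sqrt_pos.mpr (by positivity)
  have hq2 : q ^ 2 = 32 * η * κ := Real.sq_sqrt (by positivity)
  set R : ℝ := max 3 (24 * κ / q) with hR
  have hR3 : 3 ≤ R := le_max_left _ _
  have hR4 : 24 * κ ≤ R * q := by
    have : 24 * κ / q ≤ R := le_max_right _ _
    rwa [div_le_iff₀ hq0] at this
  set p : ℝ := min (κ / 6) (min (q / 8) (κ * ε / 2)) with hp
  have hp0 : 0 < p := lt_min (by positivity) (lt_min (by positivity) (by positivity))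
  have hp1 : 6 * p ≤ κ := by
    have : p ≤ κ / 6 := min_le_left _ _
    linarith
  have hp2 : p ≤ q / 8 := (min_le_right _ _).trans (min_le_left _ _)
  have hp3 : p ≤ κ * ε / 2 := (min_le_right _ _).trans (min_le_right _ _)
  have hcond : (12 * κ + 4 * p * R) ^ 2 ≤ 32 * η * κ * R ^ 2 := by
    rw [← hq2, ← mul_pow]
    refine pow_le_pow_left₀ (by positivity) ?_ 2
    nlinarith
  refine ⟨R, p, hp0, fun D hD => ?_⟩
  obtain ⟨N1, hN1⟩ := exists_nat_ge (D + p + 1)
  set A : ℝ := Real.exp (-(2 * d * κ)) * ((min κ 1) ^ N1 / (Nat.factorial N1)) with hA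
  have hk0 : 0 < min κ 1 := lt_min hκ one_pos
  have hA0 : 0 < A := by
    have : (0 : ℝ) < Nat.factorial N1 := by exact_mod_cast Nat.factorial_pos N1
    positivity
  have hev := eventually_poly_le_exp d (2 * p) (2 * (D + R + 2) + 1) ((R ^ 4) ^ d)
    (A * Real.exp (-γ)) (δ / 2) (by positivity) (by positivity) (by positivity) (by positivity)
    (by positivity)
  filter_upwards [hev, eventually_ge_atTop 2, eventually_ge_atTop (2 * (D + d * R) / (κ * ε))]
    with T hT hT2 hT3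
  intro c v V u hc hv hu hV0 hV
  have hT0 : 0 ≤ T := by linarith
  have hu0 : 0 ≤ u 0 T := hu.nonneg 0 T ⟨hT0, le_rfl⟩
  have hstep := lower_step hκ hp0.le hp1 hR3 hη0 hcond hv hc hu hV0 hV (S := ε * T) (by positivity)
    (by nlinarith) (by
      rw [div_le_iff₀ (by positivity)] at hT3
      nlinarith) (N1 := N1) hN1 (N := ⌈D + p * T + R + 1⌉) (Int.le_ceil _)
  have hN : (⌈D + p * T + R + 1⌉ : ℝ) ≤ D + p * T + R + 2 := by
    have := (Int.ceil_lt_add_one (D + p * T + R + 1)).le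
    linarith
  have hN0 : (0 : ℝ) ≤ ⌈D + p * T + R + 1⌉ := by
    have h1 := Int.le_ceil (D + p * T + R + 1)
    have : 0 ≤ p * T := by positivity
    linarith
  rw [hdη] at hstep
  set N : ℝ := (⌈D + p * T + R + 1⌉ : ℝ) with hNdef
  have h1 : (2 * N + 1) ^ d * (R ^ 4) ^ d ≤ A * Real.exp (-γ) * Real.exp (δ / 2 * T) := by
    refine le_trans ?_ hT
    have : 2 * N + 1 ≤ 2 * p * T + (2 * (D + R + 2) + 1) := by linarith
    gcongr
  have hES := Real.exp_pos (2 * d * κ * (ε * T))
  have h2 : A * Real.exp ((γ - δ / 4) * (T - ε * T - 1)) ≤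
      A * ((Real.exp (-γ) * Real.exp (δ / 2 * T) * Real.exp (2 * d * κ * (ε * T))) * u 0 T) := by
    calc _ ≤ (2 * N + 1) ^ d * (R ^ 4) ^ d * (Real.exp (2 * d * κ * (ε * T)) * u 0 T) := hstep
      _ ≤ (A * Real.exp (-γ) * Real.exp (δ / 2 * T)) *
          (Real.exp (2 * d * κ * (ε * T)) * u 0 T) := by gcongr
      _ = _ := by ring
  have h3 := le_of_mul_le_mul_left h2 hA0
  rw [← Real.exp_add, ← Real.exp_add] at h3
  set B : ℝ := -γ + δ / 2 * T + 2 * d * κ * (ε * T) with hB
  have h4 : Real.exp ((γ - δ) * T) * Real.exp B ≤ Real.exp ((γ - δ / 4) * (T - ε * T - 1)) := by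
    rw [← Real.exp_add]
    apply Real.exp_le_exp.mpr
    rw [hB]
    have h5 : ε * (γ + 2 * d * κ) * T ≤ δ / 4 * T := by gcongr
    nlinarith [mul_nonneg hε0.le hT0, mul_pos hδ hε0]
  have h6 := h4.trans h3
  have hBpos := Real.exp_pos B
  nlinarith

end Pool.Agent.Lib.Helper97.PAM
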