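import Mathlib
import Pool.Agent.Lib.Helper97.PAM.Quant
import Pool.Agent.Lib.Helper97.PAM.Defs

open MeasureTheory Filter Set Topology ProbabilityTheory
open scoped ENNReal

namespace Pool.Agent.Lib.Helper97.PAM

variable {d : ℕ}

instance [NeZero d] : IsProbabilityMeasure (clockLaw d) := by
  have := isProbabilityMeasure_expMeasure (r := 1) one_pos
  unfold clockLaw
  infer_instance

instance [NeZero d] : IsProbabilityMeasure (walkLaw d) := by
  unfold walkLaw; infer_instance

/-- prepend an element -/
def cons (a : ℝ × (Fin d × Bool)) (w : ℕ → ℝ × (Fin d × Bool)) : ℕ → ℝ × (Fin d × Bool)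
  | 0 => a
  | n + 1 => w n

lemma jumpTime_cons (a : ℝ × (Fin d × Bool)) (w : ℕ → ℝ × (Fin d × Bool)) (n : ℕ) :
    jumpTime (cons a w) (n + 1) = a.1 + jumpTime w n := by
  unfold jumpTime
  rw [Finset.sum_range_succ']
  simp only [cons]
  ring

/-- non-explosion -/
def Good (w : ℕ → ℝ × (Fin d × Bool)) : Prop := ∀ s : ℝ, ∃ n, s < jumpTime w (n + 1)

lemma jumpCount_cons_lt {a : ℝ × (Fin d × Bool)} {w : ℕ → ℝ × (Fin d × Bool)} {s : ℝ}
    (h : s < a.1) : jumpCount (cons a w) s = 0 := by
  unfold jumpCount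
  rw [Nat.sInf_eq_zero]
  left
  change s < jumpTime (cons a w) (0 + 1)
  rw [jumpTime_cons]
  simpa [jumpTime] using h

lemma jumpCount_cons_ge {a : ℝ × (Fin d × Bool)} {w : ℕ → ℝ × (Fin d × Bool)} {s : ℝ}
    (h : a.1 ≤ s) (hw : Good w) : jumpCount (cons a w) s = jumpCount w (s - a.1) + 1 := by
  unfold jumpCount
  have h1 : {n | s - a.1 < jumpTime w (n + 1)} = {n | s < jumpTime (cons a w) (n + 1 + 1)} := by
    ext n
    change s - a.1 < jumpTime w (n + 1) ↔ s < jumpTime (cons a w) (n + 1 + 1)
    rw [jumpTime_cons]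
    constructor <;> intro h <;> linarith
  rw [h1]
  have h2 := Nat.sInf_add (p := fun n => s < jumpTime (cons a w) (n + 1)) (n := 1)
  symm
  apply h2
  refine le_csInf ?_ ?_
  · obtain ⟨n, hn⟩ := hw (s - a.1)
    refine ⟨n + 1, ?_⟩
    change s < jumpTime (cons a w) (n + 1 + 1)
    rw [jumpTime_cons]
    linarith
  · intro n hn
    by_contra hcon
    have : n = 0 := by omega
    subst this
    change s < jumpTime (cons a w) (0 + 1) at hn
    rw [jumpTime_cons] at hn
    simp [jumpTime] at hn
    linarith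

lemma pos_cons_lt {a : ℝ × (Fin d × Bool)} {w : ℕ → ℝ × (Fin d × Bool)} {s : ℝ}
    (h : s < a.1) : position (cons a w) s = 0 := by
  unfold position
  rw [jumpCount_cons_lt h]
  simp

lemma pos_cons_ge {a : ℝ × (Fin d × Bool)} {w : ℕ → ℝ × (Fin d × Bool)} {s : ℝ}
    (h : a.1 ≤ s) (hw : Good w) : position (cons a w) s = unitStep a.2 + position w (s - a.1) := by
  unfold position
  rw [jumpCount_cons_ge h hw, Finset.sum_range_succ']
  simp only [cons]
  rw [add_comm]

lemma measurable_cons : Measurable fun p : (ℝ × (Fin d × Bool)) × (ℕ → ℝ × (Fin d × Bool)) =>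
    cons p.1 p.2 := by
  refine measurable_pi_lambda _ fun n => ?_
  cases n with
  | zero => exact measurable_fst
  | succ n => exact (measurable_pi_apply n).comp measurable_snd

lemma measurePreserving_cons (d : ℕ) [NeZero d] :
    MeasurePreserving (fun p : (ℝ × (Fin d × Bool)) × (ℕ → ℝ × (Fin d × Bool)) =>
      cons p.1 p.2) ((clockLaw d).prod (walkLaw d)) (walkLaw d) := by
  refine ⟨measurable_cons, ?_⟩
  refine Measure.eq_infinitePi _ fun s t ht => ?_
  rw [Measure.map_apply measurable_cons (MeasurableSet.pi s.countable_toSet fun i _ => ht i)]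
  set s' : Finset ℕ := (s.erase 0).image (fun n => n - 1) with hs'
  have hmem : ∀ n, n ∈ s' ↔ n + 1 ∈ s := by
    intro n
    rw [hs', Finset.mem_image]
    constructor
    · rintro ⟨m, hm, rfl⟩
      rw [Finset.mem_erase] at hm
      have : m - 1 + 1 = m := by omega
      rw [this]; exact hm.2
    · intro h
      exact ⟨n + 1, by rw [Finset.mem_erase]; exact ⟨by omega, h⟩, by simp⟩
  have h1 : (fun p : (ℝ × (Fin d × Bool)) × (ℕ → ℝ × (Fin d × Bool)) =>
      cons p.1 p.2) ⁻¹' (Set.pi s t) =
      (if 0 ∈ s then t 0 else univ) ×ˢ (Set.pi s' fun n => t (n + 1)) := by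
    ext ⟨a, w⟩
    simp only [mem_preimage, Set.mem_pi, mem_prod, Finset.mem_coe]
    constructor
    · intro h
      constructor
      · split_ifs with h0
        · exact h 0 h0
        · trivial
      · intro n hn
        exact h (n + 1) ((hmem n).mp hn)
    · rintro ⟨h2, h3⟩ n hn
      cases n with
      | zero => rw [if_pos hn] at h2; exact h2
      | succ n => exact h3 n ((hmem n).mpr hn)
  rw [h1, Measure.prod_prod]
  have h2 : walkLaw d (Set.pi s' fun n => t (n + 1)) = ∏ n ∈ s', clockLaw d (t (n + 1)) := by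
    unfold walkLaw
    rw [Measure.infinitePi_pi]
    intro i _
    exact ht (i + 1)
  rw [h2]
  have h3 : ∏ n ∈ s', clockLaw d (t (n + 1)) = ∏ n ∈ s.erase 0, clockLaw d (t n) := by
    rw [hs', Finset.prod_image]
    · refine Finset.prod_congr rfl fun m hm => ?_
      rw [Finset.mem_erase] at hm
      have : m - 1 + 1 = m := by omega
      rw [this]
    · intro a ha b hb hab
      simp only [Finset.coe_erase, Set.mem_sdiff, Finset.mem_coe, mem_singleton_iff] at ha hb
      simp only at hab
      omega
  rw [h3]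
  by_cases h0 : 0 ∈ s
  · rw [if_pos h0, Finset.mul_prod_erase s (fun n => clockLaw d (t n)) h0]
  · rw [if_neg h0, measure_univ, one_mul, Finset.erase_eq_of_notMem h0]

lemma measurable_jumpTime (n : ℕ) :
    Measurable fun w : ℕ → ℝ × (Fin d × Bool) => jumpTime w n := by
  unfold jumpTime
  exact Finset.measurable_fun_sum _ fun k _ => measurable_fst.comp (measurable_pi_apply k)

lemma lintegral_exp_expMeasure :
    ∫⁻ x, ENNReal.ofReal (Real.exp (-x)) ∂(expMeasure 1) = ENNReal.ofReal (1 / 2) := by
  have h1 : expMeasure 1 = volume.withDensity (exponentialPDF 1) := rfl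
  rw [h1, lintegral_withDensity_eq_lintegral_mul]
  · have h2 : ∀ x, (exponentialPDF 1 * fun x => ENNReal.ofReal (Real.exp (-x))) x =
        ENNReal.ofReal (1 / 2) * exponentialPDF 2 x := by
      intro x
      rw [Pi.mul_apply, exponentialPDF_eq, exponentialPDF_eq]
      split_ifs
      · rw [← ENNReal.ofReal_mul (by positivity), ← ENNReal.ofReal_mul (by positivity)]
        congr 1
        rw [one_mul, one_mul, ← Real.exp_add, ← mul_assoc]
        norm_num
        ring
      · simp
    simp_rw [h2]
    rw [lintegral_const_mul, lintegral_exponentialPDF_eq_one (by norm_num), mul_one]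
    exact (measurable_exponentialPDFReal 2).ennreal_ofReal
  · exact (measurable_exponentialPDFReal 1).ennreal_ofReal
  · exact (Real.measurable_exp.comp measurable_neg).ennreal_ofReal

lemma lintegral_exp_jumpTime [NeZero d] (n : ℕ) :
    ∫⁻ w, ENNReal.ofReal (Real.exp (-jumpTime w n)) ∂(walkLaw d) = ENNReal.ofReal (1 / 2) ^ n := by
  induction n with
  | zero => simp [jumpTime]
  | succ n ih =>
    have hm : Measurable fun w : ℕ → ℝ × (Fin d × Bool) =>
        ENNReal.ofReal (Real.exp (-jumpTime w (n + 1))) :=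
      (Real.measurable_exp.comp (measurable_jumpTime _).neg).ennreal_ofReal
    rw [← (measurePreserving_cons d).lintegral_comp hm]
    have h1 : ∀ p : (ℝ × (Fin d × Bool)) × (ℕ → ℝ × (Fin d × Bool)),
        ENNReal.ofReal (Real.exp (-jumpTime (cons p.1 p.2) (n + 1))) =
        ENNReal.ofReal (Real.exp (-p.1.1)) * ENNReal.ofReal (Real.exp (-jumpTime p.2 n)) := by
      intro p
      rw [jumpTime_cons, ← ENNReal.ofReal_mul (Real.exp_pos _).le, ← Real.exp_add]
      congr 2
      ring
    simp_rw [h1]
    rw [lintegral_prod_mul (f := fun a : ℝ × (Fin d × Bool) => ENNReal.ofReal (Real.exp (-a.1)))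
      (g := fun w => ENNReal.ofReal (Real.exp (-jumpTime w n))), ih]
    · have h2 : ∫⁻ a, ENNReal.ofReal (Real.exp (-a.1)) ∂(clockLaw d) = ENNReal.ofReal (1 / 2) := by
        have := isProbabilityMeasure_expMeasure (r := 1) one_pos
        unfold clockLaw
        rw [← lintegral_exp_expMeasure]
        have h3 := (measurePreserving_fst (μ := expMeasure 1)
          (ν := (PMF.uniformOfFintype (Fin d × Bool)).toMeasure)).lintegral_comp
          (f := fun x => ENNReal.ofReal (Real.exp (-x)))
          (Real.measurable_exp.comp measurable_neg).ennreal_ofReal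
        exact h3
      rw [h2, pow_succ, mul_comm]
    · exact (Real.measurable_exp.comp measurable_fst.neg).ennreal_ofReal.aemeasurable
    · exact (Real.measurable_exp.comp (measurable_jumpTime n).neg).ennreal_ofReal.aemeasurable

lemma ae_good (d : ℕ) [NeZero d] : ∀ᵐ w ∂(walkLaw d), Good w := by
  have h1 : ∀ m : ℕ, ∀ᵐ w ∂(walkLaw d), ∃ n, (m : ℝ) < jumpTime w (n + 1) := by
    intro m
    rw [ae_iff]
    push Not
    set S : Set (ℕ → ℝ × (Fin d × Bool)) := {w | ∀ n, jumpTime w (n + 1) ≤ m} with hS
    have h2 : ∀ n, walkLaw d S ≤ ENNReal.ofReal (1 / 2) ^ (n + 1) / ENNReal.ofReal (Real.exp (-m)) := by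
      intro n
      rw [← lintegral_exp_jumpTime (d := d) (n + 1)]
      refine (measure_mono ?_).trans (meas_ge_le_lintegral_div ?_ ?_ ENNReal.ofReal_ne_top)
      · intro w hw
        have := hw n
        simp only [mem_ofPred_eq]
        apply ENNReal.ofReal_le_ofReal
        apply Real.exp_le_exp.mpr
        linarith
      · exact (Real.measurable_exp.comp (measurable_jumpTime _).neg).ennreal_ofReal.aemeasurable
      · simp [Real.exp_pos]
    have h3 : Tendsto (fun n : ℕ => ENNReal.ofReal (1 / 2) ^ (n + 1) /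
        ENNReal.ofReal (Real.exp (-m))) atTop (𝓝 (0 / ENNReal.ofReal (Real.exp (-m)))) := by
      refine ENNReal.Tendsto.div_const ?_ (Or.inr (by simp [Real.exp_pos]))
      refine (tendsto_add_atTop_iff_nat 1).mpr ?_
      refine ENNReal.tendsto_pow_atTop_nhds_zero_of_lt_one ?_
      rw [← ENNReal.ofReal_one]
      exact ENNReal.ofReal_lt_ofReal_iff_of_nonneg (by norm_num) |>.mpr (by norm_num)
    rw [ENNReal.zero_div] at h3
    exact le_antisymm (ge_of_tendsto' h3 h2) zero_le
  rw [← ae_all_iff] at h1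
  filter_upwards [h1] with w hw
  intro s
  obtain ⟨m, hm⟩ := exists_nat_ge s
  obtain ⟨n, hn⟩ := hw m
  exact ⟨n, hm.trans_lt hn⟩

end Pool.Agent.Lib.Helper97.PAM
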