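import Mathlib
import Pool.Agent.Lib.Helper97.PAM.Walk

open MeasureTheory Filter Set Topology ProbabilityTheory
open scoped ENNReal

namespace Pool.Agent.Lib.Helper97.PAM

variable {d : ℕ}

lemma measurable_jumpCount :
    Measurable fun p : (ℕ → ℝ × (Fin d × Bool)) × ℝ => jumpCount p.1 p.2 := by
  refine measurable_to_countable' fun n => ?_
  have hA : ∀ m, MeasurableSet {p : (ℕ → ℝ × (Fin d × Bool)) × ℝ |
      p.2 < jumpTime p.1 (m + 1)} := fun m =>
    measurableSet_lt measurable_snd ((measurable_jumpTime (m + 1)).comp measurable_fst)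
  have h1 : (fun p : (ℕ → ℝ × (Fin d × Bool)) × ℝ => jumpCount p.1 p.2) ⁻¹' {n} =
      ({p | p.2 < jumpTime p.1 (n + 1)} ∩ ⋂ m, ⋂ (_ : m < n), {p | p.2 < jumpTime p.1 (m + 1)}ᶜ)
      ∪ (if n = 0 then ⋂ m, {p | p.2 < jumpTime p.1 (m + 1)}ᶜ else ∅) := by
    ext p
    simp only [mem_preimage, mem_singleton_iff, mem_union, mem_inter_iff, mem_iInter]
    constructor
    · intro h
      rcases Set.eq_empty_or_nonempty {m | p.2 < jumpTime p.1 (m + 1)} with he | hne
      · right
        have : n = 0 := by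
          rw [← h]; unfold jumpCount; rw [he]; exact Nat.sInf_empty
        rw [if_pos this, mem_iInter]
        intro m hm
        have : m ∈ {m | p.2 < jumpTime p.1 (m + 1)} := hm
        rw [he] at this
        exact this
      · left
        have h2 := Nat.sInf_mem hne
        unfold jumpCount at h
        rw [h] at h2
        refine ⟨h2, fun m hm hm' => ?_⟩
        rw [← h] at hm
        exact Nat.notMem_of_lt_sInf hm hm'
    · rintro (⟨h1, h2⟩ | h)
      · unfold jumpCount
        refine le_antisymm (Nat.sInf_le h1) ?_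
        by_contra hcon
        push Not at hcon
        have h3 : sInf {m | p.2 < jumpTime p.1 (m + 1)} ∈ {m | p.2 < jumpTime p.1 (m + 1)} :=
          Nat.sInf_mem ⟨n, h1⟩
        exact h2 _ hcon h3
      · by_cases hn : n = 0
        · rw [if_pos hn, mem_iInter] at h
          rw [hn]
          unfold jumpCount
          rw [Nat.sInf_eq_zero]
          right
          ext m
          simp only [mem_empty_iff_false, iff_false]
          exact h m
        · rw [if_neg hn] at h
          exact absurd h (by simp)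
  rw [h1]
  refine MeasurableSet.union ((hA n).inter ?_) ?_
  · exact MeasurableSet.iInter fun m => MeasurableSet.iInter fun _ => (hA m).compl
  · split_ifs
    · exact MeasurableSet.iInter fun m => (hA m).compl
    · exact MeasurableSet.empty

lemma measurable_pos :
    Measurable fun p : (ℕ → ℝ × (Fin d × Bool)) × ℝ => position p.1 p.2 := by
  refine measurable_to_countable' fun y => ?_
  have h1 : (fun p : (ℕ → ℝ × (Fin d × Bool)) × ℝ => position p.1 p.2) ⁻¹' {y} =
      ⋃ n, ((fun p : (ℕ → ℝ × (Fin d × Bool)) × ℝ => jumpCount p.1 p.2) ⁻¹' {n} ∩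
        (fun p : (ℕ → ℝ × (Fin d × Bool)) × ℝ =>
          ∑ k ∈ Finset.range n, unitStep (p.1 k).2) ⁻¹' {y}) := by
    ext p
    simp only [mem_preimage, mem_singleton_iff, mem_iUnion, mem_inter_iff]
    constructor
    · intro h; exact ⟨_, rfl, h⟩
    · rintro ⟨n, rfl, h⟩; exact h
  rw [h1]
  refine MeasurableSet.iUnion fun n => ?_
  refine (measurable_jumpCount (measurableSet_singleton n)).inter ?_
  have h2 : Measurable fun p : (ℕ → ℝ × (Fin d × Bool)) × ℝ =>
      ∑ k ∈ Finset.range n, unitStep (p.1 k).2 := by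
    refine Finset.measurable_fun_sum _ fun k _ => ?_
    exact (Measurable.of_discrete (f := unitStep)).comp
      (measurable_snd.comp ((measurable_pi_apply k).comp measurable_fst))
  exact h2 (measurableSet_singleton y)

/-- integrand of the (forward) Feynman-Kac functional -/
noncomputable def fkInt (r : ℝ) (W : (Fin d → ℤ) → ℝ → ℝ) (x : Fin d → ℤ) (t : ℝ)
    (w : ℕ → ℝ × (Fin d × Bool)) : ℝ :=
  Real.exp (∫ q in (0:ℝ)..t, W (x + position w (r * q)) (t - q)) *
    (if x + position w (r * t) = 0 then 1 else 0)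

/-- Feynman-Kac functional -/
noncomputable def fk [NeZero d] (r : ℝ) (W : (Fin d → ℤ) → ℝ → ℝ) (x : Fin d → ℤ) (t : ℝ) : ℝ :=
  ∫ w, fkInt r W x t w ∂(walkLaw d)

lemma measurable_eval {Z : Type*} [MeasurableSpace Z] {H : Z → (Fin d → ℤ) → ℝ}
    (hH : ∀ y, Measurable fun z => H z y) {y : Z → (Fin d → ℤ)} (hy : Measurable y) :
    Measurable fun z => H z (y z) := by
  have h1 : Measurable fun p : Z × (Fin d → ℤ) => H p.1 p.2 :=
    measurable_from_prod_countable_left (f := fun p : Z × (Fin d → ℤ) => H p.1 p.2) hH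
  exact h1.comp (measurable_id.prodMk hy)

lemma measurable_fkInt {Z : Type*} [MeasurableSpace Z] {W : Z → (Fin d → ℤ) → ℝ → ℝ}
    (hW : ∀ y, Measurable fun p : Z × ℝ => W p.1 y p.2) (r : ℝ) (x : Fin d → ℤ)
    {t : Z → ℝ} (ht : Measurable t) :
    Measurable fun p : Z × (ℕ → ℝ × (Fin d × Bool)) => fkInt r (W p.1) x (t p.1) p.2 := by
  unfold fkInt
  have hpos : ∀ {Y : Type _} [MeasurableSpace Y] {f : Y → (ℕ → ℝ × (Fin d × Bool))} {g : Y → ℝ},
      Measurable f → Measurable g → Measurable fun y => x + position (f y) (g y) := by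
    intro Y _ f g hf hg
    exact (measurable_pos.comp (hf.prodMk hg)).const_add x
  refine Measurable.mul ?_ ?_
  · refine Real.measurable_exp.comp ?_
    have h1 : ∀ p : Z × (ℕ → ℝ × (Fin d × Bool)),
        ∫ q in (0:ℝ)..(t p.1), W p.1 (x + position p.2 (r * q)) (t p.1 - q) =
        t p.1 * ∫ θ in (0:ℝ)..1, W p.1 (x + position p.2 (r * (t p.1 * θ))) (t p.1 - t p.1 * θ) := by
      intro p
      rw [intervalIntegral.mul_integral_comp_mul_left
        (f := fun q => W p.1 (x + position p.2 (r * q)) (t p.1 - q)), mul_zero, mul_one]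
    simp_rw [h1]
    refine (ht.comp measurable_fst).mul ?_
    simp_rw [intervalIntegral.integral_of_le (zero_le_one (α := ℝ))]
    refine StronglyMeasurable.measurable ?_
    refine StronglyMeasurable.integral_prod_right'
      (f := fun z : (Z × (ℕ → ℝ × (Fin d × Bool))) × ℝ =>
        W z.1.1 (x + position z.1.2 (r * (t z.1.1 * z.2))) (t z.1.1 - t z.1.1 * z.2)) ?_
    refine Measurable.stronglyMeasurable ?_
    have htz : Measurable fun z : (Z × (ℕ → ℝ × (Fin d × Bool))) × ℝ => t z.1.1 :=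
      ht.comp (measurable_fst.comp measurable_fst)
    refine measurable_eval (H := fun z : (Z × (ℕ → ℝ × (Fin d × Bool))) × ℝ => fun y =>
      W z.1.1 y (t z.1.1 - t z.1.1 * z.2)) ?_ ?_
    · intro y
      exact (hW y).comp ((measurable_fst.comp measurable_fst).prodMk
        (htz.sub (htz.mul measurable_snd)))
    · exact hpos (measurable_snd.comp measurable_fst) ((htz.mul measurable_snd).const_mul r)
  · have h2 : Measurable fun p : Z × (ℕ → ℝ × (Fin d × Bool)) => x + position p.2 (r * t p.1) :=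
      hpos measurable_snd ((ht.comp measurable_fst).const_mul r)
    exact Measurable.ite (h2 (measurableSet_singleton 0)) measurable_const measurable_const

lemma measurable_fk [NeZero d] {Z : Type*} [MeasurableSpace Z] {W : Z → (Fin d → ℤ) → ℝ → ℝ}
    (hW : ∀ y, Measurable fun p : Z × ℝ => W p.1 y p.2) (r : ℝ) (x : Fin d → ℤ)
    {t : Z → ℝ} (ht : Measurable t) : Measurable fun p : Z => fk r (W p) x (t p) := by
  unfold fk
  refine StronglyMeasurable.measurable ?_
  exact StronglyMeasurable.integral_prod_right'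
    (f := fun z : Z × (ℕ → ℝ × (Fin d × Bool)) => fkInt r (W z.1) x (t z.1) z.2)
    (measurable_fkInt hW r x ht).stronglyMeasurable

lemma intervalIntegrable_of_bdd {f : ℝ → ℝ} (hf : Measurable f) {M : ℝ} (hM : ∀ s, |f s| ≤ M)
    (a b : ℝ) : IntervalIntegrable f volume a b := by
  refine (intervalIntegrable_const (c := M)).mono_fun hf.aestronglyMeasurable (ae_of_all _ ?_)
  intro s
  simp only [Real.norm_eq_abs]
  exact (hM s).trans (le_abs_self M)

/-- standing assumptions on a potential -/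
structure Pot (M : ℝ) (W : (Fin d → ℤ) → ℝ → ℝ) : Prop where
  cont : ∀ y, Continuous (W y)
  nonneg : ∀ y s, 0 ≤ W y s
  le : ∀ y s, W y s ≤ M

lemma Pot.M_nonneg {M : ℝ} {W : (Fin d → ℤ) → ℝ → ℝ} (hW : Pot M W) : 0 ≤ M :=
  (hW.nonneg 0 0).trans (hW.le 0 0)

lemma Pot.abs_le {M : ℝ} {W : (Fin d → ℤ) → ℝ → ℝ} (hW : Pot M W) (y : Fin d → ℤ) (s : ℝ) :
    |W y s| ≤ M := by rw [abs_of_nonneg (hW.nonneg y s)]; exact hW.le y s

lemma measurable_path {M : ℝ} {W : (Fin d → ℤ) → ℝ → ℝ} (hW : Pot M W) (x : Fin d → ℤ)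
    (w : ℕ → ℝ × (Fin d × Bool)) (r c t : ℝ) :
    Measurable fun q : ℝ => W (x + position w (r * (q - c))) (t - q) := by
  refine measurable_eval (H := fun q : ℝ => fun y => W y (t - q)) ?_ ?_
  · intro y
    exact (hW.cont y).measurable.comp (measurable_const.sub measurable_id)
  · exact (measurable_pos.comp (measurable_const.prodMk
      ((measurable_id.sub measurable_const).const_mul r))).const_add x

lemma measurable_path0 {M : ℝ} {W : (Fin d → ℤ) → ℝ → ℝ} (hW : Pot M W) (x : Fin d → ℤ)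
    (w : ℕ → ℝ × (Fin d × Bool)) (r t : ℝ) :
    Measurable fun q : ℝ => W (x + position w (r * q)) (t - q) := by
  simpa using measurable_path hW x w r 0 t

lemma fkInt_nonneg (r : ℝ) (W : (Fin d → ℤ) → ℝ → ℝ) (x : Fin d → ℤ) (t : ℝ)
    (w : ℕ → ℝ × (Fin d × Bool)) : 0 ≤ fkInt r W x t w := by
  unfold fkInt
  refine mul_nonneg (Real.exp_pos _).le ?_
  split_ifs <;> norm_num

lemma fkInt_le {M : ℝ} {W : (Fin d → ℤ) → ℝ → ℝ} (hW : Pot M W) (r : ℝ) (x : Fin d → ℤ)
    {t : ℝ} (ht : 0 ≤ t) (w : ℕ → ℝ × (Fin d × Bool)) : fkInt r W x t w ≤ Real.exp (M * t) := by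
  unfold fkInt
  have h1 : ∫ q in (0:ℝ)..t, W (x + position w (r * q)) (t - q) ≤ M * t := by
    have h2 := intervalIntegral.integral_mono_on ht
      (intervalIntegrable_of_bdd (measurable_path0 hW x w r t) (fun s => hW.abs_le _ _) 0 t)
      (intervalIntegrable_const (c := M)) (fun q _ => hW.le _ _)
    simp only [intervalIntegral.integral_const, sub_zero, smul_eq_mul] at h2
    linarith
  have h3 := Real.exp_le_exp.mpr h1
  have h4 := Real.exp_pos (∫ q in (0:ℝ)..t, W (x + position w (r * q)) (t - q))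
  split_ifs
  · linarith
  · rw [mul_zero]; exact (Real.exp_pos _).le

lemma fkInt_cons_lt {W : (Fin d → ℤ) → ℝ → ℝ} {r : ℝ} (hr : 0 < r) (x : Fin d → ℤ)
    {t : ℝ} (ht : 0 ≤ t) {a : ℝ × (Fin d × Bool)} {w : ℕ → ℝ × (Fin d × Bool)}
    (ha : r * t < a.1) :
    fkInt r W x t (cons a w) = Real.exp (∫ q in (0:ℝ)..t, W x q) * (if x = 0 then 1 else 0) := by
  unfold fkInt
  rw [pos_cons_lt ha, add_zero]
  congr 2
  have h1 : ∫ q in (0:ℝ)..t, W (x + position (cons a w) (r * q)) (t - q) =
      ∫ q in (0:ℝ)..t, W x (t - q) := by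
    refine intervalIntegral.integral_congr fun q hq => ?_
    rw [uIcc_of_le ht] at hq
    have : r * q < a.1 := lt_of_le_of_lt (mul_le_mul_of_nonneg_left hq.2 hr.le) ha
    rw [pos_cons_lt this, add_zero]
  rw [h1, intervalIntegral.integral_comp_sub_left (fun q => W x q)]
  simp

lemma fkInt_cons_ge {M : ℝ} {W : (Fin d → ℤ) → ℝ → ℝ} (hW : Pot M W) {r : ℝ} (hr : 0 < r)
    (x : Fin d → ℤ) {t : ℝ} {a : ℝ × (Fin d × Bool)} {w : ℕ → ℝ × (Fin d × Bool)}
    (hw : Good w) (ha0 : 0 ≤ a.1) (ha : a.1 ≤ r * t) :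
    fkInt r W x t (cons a w) = Real.exp (∫ q in (t - a.1 / r)..t, W x q) *
      fkInt r W (x + unitStep a.2) (t - a.1 / r) w := by
  unfold fkInt
  have hb : a.1 / r ≤ t := by rw [div_le_iff₀ hr]; linarith
  have hb0 : 0 ≤ a.1 / r := div_nonneg ha0 hr.le
  have e1 : r * (t - a.1 / r) = r * t - a.1 := by field_simp
  rw [pos_cons_ge ha hw, e1, ← mul_assoc, ← Real.exp_add, add_assoc]
  congr 2
  set g : ℝ → ℝ := fun q => W (x + position (cons a w) (r * q)) (t - q) with hg
  have hgi : ∀ a b, IntervalIntegrable g volume a b := fun a' b' =>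
    intervalIntegrable_of_bdd (measurable_path0 hW x _ r t) (fun s => hW.abs_le _ _) a' b'
  rw [← intervalIntegral.integral_add_adjacent_intervals (hgi 0 (a.1 / r)) (hgi (a.1 / r) t)]
  congr 1
  · have h1 : ∫ q in (0:ℝ)..(a.1 / r), g q = ∫ q in (0:ℝ)..(a.1 / r), W x (t - q) := by
      refine intervalIntegral.integral_congr_ae ?_
      have hne : ∀ᵐ q : ℝ ∂volume, q ≠ a.1 / r := by
        simp [ae_iff, measure_singleton]
      filter_upwards [hne] with q hq hq2
      rw [uIoc_of_le hb0] at hq2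
      have h3 : q < a.1 / r := lt_of_le_of_ne hq2.2 hq
      have h4 : r * q < a.1 := by rw [lt_div_iff₀ hr] at h3; linarith
      simp only [hg]
      rw [pos_cons_lt h4, add_zero]
    rw [h1, intervalIntegral.integral_comp_sub_left (fun q => W x q)]
    simp
  · have h1 : ∫ q in (a.1 / r)..t, g q = ∫ q in (a.1 / r)..t,
        W (x + unitStep a.2 + position w (r * (q - a.1 / r))) (t - a.1 / r - (q - a.1 / r)) := by
      refine intervalIntegral.integral_congr fun q hq => ?_
      rw [uIcc_of_le hb] at hq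
      have h4 : a.1 ≤ r * q := by
        have := hq.1
        rw [div_le_iff₀ hr] at this; linarith
      have e2 : r * q - a.1 = r * (q - a.1 / r) := by field_simp
      simp only [hg]
      rw [pos_cons_ge h4 hw, e2, add_assoc]
      congr 1
      ring
    rw [h1, intervalIntegral.integral_comp_sub_right
      (fun q => W (x + unitStep a.2 + position w (r * q)) (t - a.1 / r - q))]
    simp

lemma Pot.measurable_joint {Z : Type*} [MeasurableSpace Z] {M : ℝ} {W : (Fin d → ℤ) → ℝ → ℝ}
    (hW : Pot M W) (y : Fin d → ℤ) : Measurable fun p : Z × ℝ => W y p.2 :=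
  (hW.cont y).measurable.comp measurable_snd

lemma measurable_fk_time [NeZero d] {M : ℝ} {W : (Fin d → ℤ) → ℝ → ℝ} (hW : Pot M W) (r : ℝ)
    (x : Fin d → ℤ) : Measurable fun t => fk r W x t :=
  measurable_fk (Z := ℝ) (W := fun _ => W) (t := fun t => t)
    (fun y => hW.measurable_joint y) r x measurable_id

lemma measurable_fkInt_aux {M : ℝ} {W : (Fin d → ℤ) → ℝ → ℝ} (hW : Pot M W) (r : ℝ)
    (x : Fin d → ℤ) :
    Measurable fun p : ℝ × (ℕ → ℝ × (Fin d × Bool)) => fkInt r W x p.1 p.2 :=
  measurable_fkInt (Z := ℝ) (W := fun _ => W) (t := fun t => t)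
      (fun y => hW.measurable_joint y) r x measurable_id

lemma measurable_fkInt_w {M : ℝ} {W : (Fin d → ℤ) → ℝ → ℝ} (hW : Pot M W) (r : ℝ)
    (x : Fin d → ℤ) (t : ℝ) : Measurable (fkInt r W x t) := by
  have h3 := (measurable_fkInt_aux hW r x).comp (measurable_prodMk_left (x := t))
  simpa only [Function.comp_def] using h3

lemma fk_nonneg [NeZero d] (r : ℝ) (W : (Fin d → ℤ) → ℝ → ℝ) (x : Fin d → ℤ) (t : ℝ) :
    0 ≤ fk r W x t := integral_nonneg fun _ => fkInt_nonneg _ _ _ _ _

lemma integrable_fkInt [NeZero d] {M : ℝ} {W : (Fin d → ℤ) → ℝ → ℝ} (hW : Pot M W) (r : ℝ)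
    (x : Fin d → ℤ) {t : ℝ} (ht : 0 ≤ t) : Integrable (fkInt r W x t) (walkLaw d) := by
  refine Integrable.of_bound (measurable_fkInt_w hW r x t).aestronglyMeasurable
    (Real.exp (M * t)) (ae_of_all _ fun w => ?_)
  rw [Real.norm_eq_abs, abs_of_nonneg (fkInt_nonneg _ _ _ _ _)]
  exact fkInt_le hW r x ht w

lemma fk_le [NeZero d] {M : ℝ} {W : (Fin d → ℤ) → ℝ → ℝ} (hW : Pot M W) (r : ℝ)
    (x : Fin d → ℤ) {t : ℝ} (ht : 0 ≤ t) : fk r W x t ≤ Real.exp (M * t) := by
  have h1 := integral_mono (integrable_fkInt hW r x ht) (integrable_const (Real.exp (M * t)))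
    (fun w => fkInt_le hW r x ht w)
  simp only [integral_const, probReal_univ, one_smul] at h1
  exact h1

lemma ae_exp_pos : ∀ᵐ x ∂(expMeasure 1), 0 ≤ x := by
  rw [ae_iff]
  push Not
  have h1 : expMeasure 1 = volume.withDensity (exponentialPDF 1) := rfl
  have h2 : {a : ℝ | a < 0} = Iio 0 := rfl
  rw [h1, h2, withDensity_apply _ measurableSet_Iio]
  exact lintegral_exponentialPDF_of_nonpos le_rfl

lemma integral_expMeasure (f : ℝ → ℝ) :
    ∫ x, f x ∂(expMeasure 1) = ∫ x in Ioi (0:ℝ), Real.exp (-x) * f x := by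
  have h1 : expMeasure 1 = volume.withDensity (exponentialPDF 1) := rfl
  have hm : Measurable (exponentialPDF 1) := (measurable_exponentialPDFReal 1).ennreal_ofReal
  rw [h1, integral_withDensity_eq_integral_toReal_smul hm
    (ae_of_all _ fun x => ENNReal.ofReal_lt_top)]
  rw [← integral_Ici_eq_integral_Ioi, ← integral_indicator measurableSet_Ici]
  refine integral_congr_ae (ae_of_all _ fun x => ?_)
  simp only [smul_eq_mul]
  rw [exponentialPDF_eq]
  by_cases hx : 0 ≤ x
  · rw [if_pos hx, indicator_of_mem (by exact hx), one_mul, one_mul,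
      ENNReal.toReal_ofReal (Real.exp_pos _).le]
  · rw [if_neg hx, indicator_of_notMem (by exact hx)]
    simp

/-- The value of the integrand after the first jump -/
noncomputable def hfun [NeZero d] (r : ℝ) (W : (Fin d → ℤ) → ℝ → ℝ) (x : Fin d → ℤ) (t : ℝ)
    (a : ℝ × (Fin d × Bool)) : ℝ :=
  if r * t < a.1 then Real.exp (∫ q in (0:ℝ)..t, W x q) * (if x = 0 then 1 else 0)
  else Real.exp (∫ q in (t - a.1 / r)..t, W x q) * fk r W (x + unitStep a.2) (t - a.1 / r)

lemma fk_eq_hfun [NeZero d] {M : ℝ} {W : (Fin d → ℤ) → ℝ → ℝ} (hW : Pot M W) {r : ℝ} (hr : 0 < r)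
    (x : Fin d → ℤ) {t : ℝ} (ht : 0 ≤ t) :
    fk r W x t = ∫ a, hfun r W x t a ∂(clockLaw d) := by
  have hexp := isProbabilityMeasure_expMeasure (r := 1) one_pos
  have e1 : fk r W x t = ∫ p, fkInt r W x t (cons p.1 p.2) ∂((clockLaw d).prod (walkLaw d)) := by
    unfold fk
    rw [← (measurePreserving_cons d).map_eq, integral_map measurable_cons.aemeasurable
      (measurable_fkInt_w hW r x t).aestronglyMeasurable]
    rw [(measurePreserving_cons d).map_eq]
  have hint : Integrable (fun p : (ℝ × (Fin d × Bool)) × (ℕ → ℝ × (Fin d × Bool)) =>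
      fkInt r W x t (cons p.1 p.2)) ((clockLaw d).prod (walkLaw d)) := by
    refine Integrable.of_bound ((measurable_fkInt_w hW r x t).comp
      measurable_cons).aestronglyMeasurable (Real.exp (M * t)) (ae_of_all _ fun w => ?_)
    rw [Real.norm_eq_abs, abs_of_nonneg (fkInt_nonneg _ _ _ _ _)]
    exact fkInt_le hW r x ht _
  rw [e1, integral_prod _ hint]
  have hpos : ∀ᵐ a ∂(clockLaw d), 0 ≤ a.1 := by
    unfold clockLaw
    have h2 := (measurePreserving_fst (μ := expMeasure 1)
      (ν := (PMF.uniformOfFintype (Fin d × Bool)).toMeasure)).quasiMeasurePreserving.ae ae_exp_pos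
    exact h2
  refine integral_congr_ae ?_
  filter_upwards [hpos] with a ha
  unfold hfun
  split_ifs with h1
  · have h2 : ∀ w : ℕ → ℝ × (Fin d × Bool), fkInt r W x t (cons a w) =
        Real.exp (∫ q in (0:ℝ)..t, W x q) * 1 := by
      intro w
      rw [fkInt_cons_lt hr x ht h1, if_pos (by assumption)]
    simp_rw [h2]
    simp
  · have h2 : ∀ w : ℕ → ℝ × (Fin d × Bool), fkInt r W x t (cons a w) = 0 := by
      intro w
      rw [fkInt_cons_lt hr x ht h1, if_neg (by assumption), mul_zero]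
    simp_rw [h2]
    simp
  · rw [not_lt] at h1
    unfold fk
    rw [← integral_const_mul]
    refine integral_congr_ae ?_
    filter_upwards [ae_good d] with w hw
    exact fkInt_cons_ge hW hr x hw ha h1

lemma Pot.integral_le {M : ℝ} {W : (Fin d → ℤ) → ℝ → ℝ} (hW : Pot M W) (x : Fin d → ℤ)
    {a b : ℝ} (hab : a ≤ b) : ∫ q in a..b, W x q ≤ M * (b - a) := by
  have h2 := intervalIntegral.integral_mono_on (μ := volume) hab
    ((hW.cont x).intervalIntegrable a b)
    (intervalIntegrable_const (c := M)) (fun q _ => hW.le x q)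
  simp only [intervalIntegral.integral_const, smul_eq_mul] at h2
  linarith

lemma Pot.continuous_left {M : ℝ} {W : (Fin d → ℤ) → ℝ → ℝ} (hW : Pot M W) (x : Fin d → ℤ)
    (t : ℝ) : Continuous fun s => ∫ q in s..t, W x q := by
  have h1 : (fun s => ∫ q in s..t, W x q) = fun s => -∫ q in t..s, W x q := by
    funext s
    exact intervalIntegral.integral_symm _ _
  rw [h1]
  have h2 : Continuous fun s => ∫ q in t..s, W x q := intervalIntegral.continuous_primitive
    (fun a b => (hW.cont x).intervalIntegrable (μ := volume) a b) t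
  exact h2.neg

lemma measurable_hfun [NeZero d] {M : ℝ} {W : (Fin d → ℤ) → ℝ → ℝ} (hW : Pot M W) (r : ℝ)
    (x : Fin d → ℤ) (t : ℝ) : Measurable (hfun r W x t) := by
  unfold hfun
  refine Measurable.ite (measurableSet_lt measurable_const measurable_fst) measurable_const ?_
  have ht : Measurable fun a : ℝ × (Fin d × Bool) => t - a.1 / r :=
    measurable_const.sub (measurable_fst.div_const r)
  refine Measurable.mul ?_ ?_
  · exact Real.measurable_exp.comp ((hW.continuous_left x t).measurable.comp ht)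
  · refine measurable_eval (H := fun (a : ℝ × (Fin d × Bool)) y => fk r W y (t - a.1 / r)) ?_ ?_
    · intro y
      exact (measurable_fk_time hW r y).comp ht
    · exact ((Measurable.of_discrete (f := unitStep)).comp measurable_snd).const_add x

lemma hfun_nonneg [NeZero d] (r : ℝ) (W : (Fin d → ℤ) → ℝ → ℝ) (x : Fin d → ℤ) (t : ℝ)
    (a : ℝ × (Fin d × Bool)) : 0 ≤ hfun r W x t a := by
  unfold hfun
  have := fk_nonneg r W (x + unitStep a.2) (t - a.1 / r)
  split_ifs <;> positivity

lemma hfun_le [NeZero d] {M : ℝ} {W : (Fin d → ℤ) → ℝ → ℝ} (hW : Pot M W) {r : ℝ} (hr : 0 < r)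
    (x : Fin d → ℤ) {t : ℝ} (ht : 0 ≤ t) {a : ℝ × (Fin d × Bool)} (ha : 0 ≤ a.1) :
    hfun r W x t a ≤ Real.exp (M * t) := by
  unfold hfun
  split_ifs with h1 h2
  · rw [mul_one]
    apply Real.exp_le_exp.mpr
    have := hW.integral_le x ht
    simpa using this
  · rw [mul_zero]; exact (Real.exp_pos _).le
  · rw [not_lt] at h1
    have hb : a.1 / r ≤ t := by rw [div_le_iff₀ hr]; linarith
    have hb0 : 0 ≤ a.1 / r := div_nonneg ha hr.le
    have e1 := hW.integral_le x (a := t - a.1 / r) (b := t) (by linarith)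
    have e2 := fk_le hW r (x + unitStep a.2) (t := t - a.1 / r) (by linarith)
    calc _ ≤ Real.exp (M * (t - (t - a.1 / r))) * Real.exp (M * (t - a.1 / r)) := by
          gcongr
          exact fk_nonneg _ _ _ _
      _ = Real.exp (M * t) := by rw [← Real.exp_add]; congr 1; ring

/-- average over the `2d` neighbours -/
noncomputable def avg [NeZero d] (r : ℝ) (W : (Fin d → ℤ) → ℝ → ℝ) (x : Fin d → ℤ) (s : ℝ) : ℝ :=
  (2 * d : ℝ)⁻¹ * ∑ j : Fin d × Bool, fk r W (x + unitStep j) s

lemma fk_renewal_exp [NeZero d] {M : ℝ} {W : (Fin d → ℤ) → ℝ → ℝ} (hW : Pot M W) {r : ℝ}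
    (hr : 0 < r) (x : Fin d → ℤ) {t : ℝ} (ht : 0 ≤ t) :
    fk r W x t = ∫ τ in Ioi (0:ℝ), Real.exp (-τ) *
      (if r * t < τ then Real.exp (∫ q in (0:ℝ)..t, W x q) * (if x = 0 then 1 else 0)
        else Real.exp (∫ q in (t - τ / r)..t, W x q) * avg r W x (t - τ / r)) := by
  have hexp := isProbabilityMeasure_expMeasure (r := 1) one_pos
  rw [fk_eq_hfun hW hr x ht]
  have hpos : ∀ᵐ a ∂(clockLaw d), 0 ≤ a.1 := by
    unfold clockLaw
    have h2 := (measurePreserving_fst (μ := expMeasure 1)
      (ν := (PMF.uniformOfFintype (Fin d × Bool)).toMeasure)).quasiMeasurePreserving.ae ae_exp_pos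
    exact h2
  have hint : Integrable (hfun r W x t) (clockLaw d) := by
    refine Integrable.of_bound (measurable_hfun hW r x t).aestronglyMeasurable
      (Real.exp (M * t)) ?_
    filter_upwards [hpos] with a ha
    rw [Real.norm_eq_abs, abs_of_nonneg (hfun_nonneg _ _ _ _ _)]
    exact hfun_le hW hr x ht ha
  unfold clockLaw at hint ⊢
  rw [integral_prod _ hint, ← integral_expMeasure]
  refine integral_congr_ae (ae_of_all _ fun τ => ?_)
  simp only
  rw [PMF.integral_eq_sum]
  have hd : (0 : ℝ) < d := by exact_mod_cast Nat.pos_of_ne_zero (NeZero.ne d)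
  have hcard : ∀ j : Fin d × Bool, (PMF.uniformOfFintype (Fin d × Bool) j).toReal
      = (2 * d : ℝ)⁻¹ := by
    intro j
    rw [PMF.uniformOfFintype_apply]
    simp only [Fintype.card_prod, Fintype.card_fin, Fintype.card_bool, Nat.cast_mul,
      Nat.cast_ofNat, ENNReal.toReal_inv, ENNReal.toReal_mul, ENNReal.toReal_natCast,
      ENNReal.toReal_ofNat]
    rw [mul_comm]
  simp_rw [hcard, smul_eq_mul]
  rw [← Finset.mul_sum]
  unfold hfun
  simp only
  split_ifs with h1 h2
  · simp only [Finset.sum_const, Finset.card_univ, Fintype.card_prod, Fintype.card_fin,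
      Fintype.card_bool, nsmul_eq_mul]
    push_cast
    field_simp
  · simp
  · unfold avg
    rw [← Finset.mul_sum]
    ring

lemma avg_nonneg [NeZero d] (r : ℝ) (W : (Fin d → ℤ) → ℝ → ℝ) (x : Fin d → ℤ) (s : ℝ) :
    0 ≤ avg r W x s := by
  unfold avg
  exact mul_nonneg (by positivity) (Finset.sum_nonneg fun j _ => fk_nonneg _ _ _ _)

lemma avg_le [NeZero d] {M : ℝ} {W : (Fin d → ℤ) → ℝ → ℝ} (hW : Pot M W) (r : ℝ)
    (x : Fin d → ℤ) {t : ℝ} (ht : 0 ≤ t) : avg r W x t ≤ Real.exp (M * t) := by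
  have hd : (0 : ℝ) < d := by exact_mod_cast Nat.pos_of_ne_zero (NeZero.ne d)
  unfold avg
  calc (2 * d : ℝ)⁻¹ * ∑ j : Fin d × Bool, fk r W (x + unitStep j) t
      ≤ (2 * d : ℝ)⁻¹ * ∑ _j : Fin d × Bool, Real.exp (M * t) := by
        gcongr
        exact fk_le hW r _ ht
    _ = Real.exp (M * t) := by
        simp only [Finset.sum_const, Finset.card_univ, Fintype.card_prod, Fintype.card_fin,
          Fintype.card_bool, nsmul_eq_mul]
        push_cast
        field_simp

lemma measurable_avg [NeZero d] {M : ℝ} {W : (Fin d → ℤ) → ℝ → ℝ} (hW : Pot M W) (r : ℝ)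
    (x : Fin d → ℤ) : Measurable (avg r W x) := by
  unfold avg
  exact (Finset.measurable_fun_sum _ fun j _ => measurable_fk_time hW r _).const_mul _

/-- renewal (first jump) equation -/
lemma fk_renewal [NeZero d] {M : ℝ} {W : (Fin d → ℤ) → ℝ → ℝ} (hW : Pot M W) {r : ℝ}
    (hr : 0 < r) (x : Fin d → ℤ) {t : ℝ} (ht : 0 ≤ t) :
    fk r W x t = Real.exp (-(r * t)) * (Real.exp (∫ q in (0:ℝ)..t, W x q) *
      (if x = 0 then 1 else 0)) +
      r * ∫ s in (0:ℝ)..t, Real.exp (-(r * (t - s))) * (Real.exp (∫ q in s..t, W x q) *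
        avg r W x s) := by
  rw [fk_renewal_exp hW hr x ht]
  set A : ℝ := Real.exp (∫ q in (0:ℝ)..t, W x q) * (if x = 0 then 1 else 0) with hA
  set L : ℝ := r * t with hL
  have hL0 : 0 ≤ L := by positivity
  set k : ℝ → ℝ := fun τ => Real.exp (∫ q in (t - τ / r)..t, W x q) * avg r W x (t - τ / r)
    with hk
  have hkm : Measurable k := by
    have ht : Measurable fun τ : ℝ => t - τ / r := measurable_const.sub (measurable_id.div_const r)
    exact (Real.measurable_exp.comp ((hW.continuous_left x t).measurable.comp ht)).mul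
      ((measurable_avg hW r x).comp ht)
  have hkb : ∀ τ, 0 ≤ τ → τ ≤ L → 0 ≤ k τ ∧ k τ ≤ Real.exp (M * t) := by
    intro τ h0 h1
    have hb : τ / r ≤ t := by rw [div_le_iff₀ hr]; linarith
    have hb0 : 0 ≤ τ / r := div_nonneg h0 hr.le
    constructor
    · exact mul_nonneg (Real.exp_pos _).le (avg_nonneg _ _ _ _)
    · have e1 := hW.integral_le x (a := t - τ / r) (b := t) (by linarith)
      have e2 := avg_le hW r x (t := t - τ / r) (by linarith)
      have e3 := avg_nonneg r W x (t - τ / r)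
      calc _ ≤ Real.exp (M * (t - (t - τ / r))) * Real.exp (M * (t - τ / r)) := by
            simp only [hk]; gcongr
        _ = Real.exp (M * t) := by rw [← Real.exp_add]; congr 1; ring
  have hsplit : Ioi (0:ℝ) = Ioc 0 L ∪ Ioi L := (Ioc_union_Ioi_eq_Ioi hL0).symm
  have hdis : Disjoint (Ioc 0 L) (Ioi L) := by
    rw [Set.disjoint_left]
    intro a ha hb
    exact absurd ha.2 (not_le.mpr hb)
  have hi1 : IntegrableOn (fun τ => Real.exp (-τ) * (if L < τ then A else k τ)) (Ioc 0 L) := by
    refine Measure.integrableOn_of_bounded (M := Real.exp (M * t)) (by simp) ?_ ?_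
    · refine Measurable.aestronglyMeasurable ?_
      exact (Real.measurable_exp.comp measurable_neg).mul
        (Measurable.ite (measurableSet_lt measurable_const measurable_id) measurable_const hkm)
    · refine (ae_restrict_iff' measurableSet_Ioc).mpr (ae_of_all _ fun τ hτ => ?_)
      rw [if_neg (not_lt.mpr hτ.2)]
      obtain ⟨h1, h2⟩ := hkb τ hτ.1.le hτ.2
      rw [Real.norm_eq_abs, abs_of_nonneg (by positivity)]
      have : Real.exp (-τ) ≤ 1 := Real.exp_le_one_iff.mpr (by linarith [hτ.1])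
      have := Real.exp_pos (-τ)
      nlinarith
  have hi2 : IntegrableOn (fun τ => Real.exp (-τ) * (if L < τ then A else k τ)) (Ioi L) := by
    have h1 : IntegrableOn (fun τ => Real.exp (-τ) * A) (Ioi L) :=
      (integrableOn_exp_neg_Ioi L).mul_const A
    refine h1.congr_fun ?_ measurableSet_Ioi
    intro τ hτ
    have hτ' : L < τ := hτ
    simp only
    rw [if_pos hτ']
  rw [hsplit, setIntegral_union hdis measurableSet_Ioi hi1 hi2, add_comm]
  congr 1
  · have h1 : ∫ τ in Ioi L, Real.exp (-τ) * (if L < τ then A else k τ) =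
        ∫ τ in Ioi L, Real.exp (-τ) * A := by
      refine setIntegral_congr_fun measurableSet_Ioi fun τ hτ => ?_
      have hτ' : L < τ := hτ
      rw [if_pos hτ']
    rw [h1, integral_mul_const, integral_exp_neg_Ioi]
  · have h1 : ∫ τ in Ioc 0 L, Real.exp (-τ) * (if L < τ then A else k τ) =
        ∫ τ in Ioc 0 L, Real.exp (-τ) * k τ := by
      refine setIntegral_congr_fun measurableSet_Ioc fun τ hτ => ?_
      rw [if_neg (not_lt.mpr hτ.2)]
    rw [h1, ← intervalIntegral.integral_of_le hL0]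
    have h2 := intervalIntegral.integral_comp_sub_mul (a := 0) (b := t)
      (fun τ => Real.exp (-τ) * k τ) hr.ne' (r * t)
    rw [sub_self, mul_zero, sub_zero, ← hL] at h2
    have h3 : ∫ τ in (0:ℝ)..L, Real.exp (-τ) * k τ = r * ∫ s in (0:ℝ)..t,
        Real.exp (-(L - r * s)) * k (L - r * s) := by
      rw [h2, smul_eq_mul, ← mul_assoc, mul_inv_cancel₀ hr.ne', one_mul]
    rw [h3]
    congr 1
    refine intervalIntegral.integral_congr fun s _ => ?_
    have h4 : t - (L - r * s) / r = s := by rw [hL]; field_simp; ring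
    simp only [hk]
    rw [h4, hL]
    congr 2
    ring

end Pool.Agent.Lib.Helper97.PAM
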