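import Mathlib
import Pool.Agent.Lib.Helper97.PAM.FK

open MeasureTheory Filter Set Topology ProbabilityTheory
open scoped ENNReal

namespace Pool.Agent.Lib.Helper97.PAM

variable {d : ℕ}

lemma avg_eq [NeZero d] {κ : ℝ} (W : (Fin d → ℤ) → ℝ → ℝ) (x : Fin d → ℤ) (s : ℝ) :
    2 * d * κ * avg (2 * d * κ) W x s - 2 * d * κ * fk (2 * d * κ) W x s =
      κ * lap (fun y => fk (2 * d * κ) W y s) x := by
  have hd : (0 : ℝ) < d := by exact_mod_cast Nat.pos_of_ne_zero (NeZero.ne d)
  rw [lap_eq]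
  unfold avg
  rw [Fintype.sum_prod_type]
  simp only [Fintype.sum_bool, unitStep, if_true]
  simp only [Bool.false_eq_true, if_false]
  simp only [sub_eq_add_neg x]
  field_simp

/-- mild form of the renewal equation -/
lemma fk_mild [NeZero d] {M : ℝ} {W : (Fin d → ℤ) → ℝ → ℝ} (hW : Pot M W) {r : ℝ}
    (hr : 0 < r) (x : Fin d → ℤ) {t : ℝ} (ht : 0 ≤ t) :
    fk r W x t = Real.exp ((∫ q in (0:ℝ)..t, W x q) - r * t) *
      ((if x = 0 then 1 else 0) + r * ∫ s in (0:ℝ)..t,
        Real.exp (-((∫ q in (0:ℝ)..s, W x q) - r * s)) * avg r W x s) := by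
  rw [fk_renewal hW hr x ht, mul_add]
  congr 1
  · rw [← mul_assoc, ← Real.exp_add]
    congr 2
    ring
  · rw [mul_left_comm]
    congr 1
    rw [← intervalIntegral.integral_const_mul]
    refine intervalIntegral.integral_congr fun s _ => ?_
    rw [← mul_assoc, ← mul_assoc, ← Real.exp_add, ← Real.exp_add]
    congr 2
    have h1 := intervalIntegral.integral_interval_sub_left
      ((hW.cont x).intervalIntegrable (μ := volume) 0 t)
      ((hW.cont x).intervalIntegrable (μ := volume) 0 s)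
    rw [← h1]
    ring

lemma mild_integrableOn [NeZero d] {M : ℝ} {W : (Fin d → ℤ) → ℝ → ℝ} (hW : Pot M W) (r : ℝ)
    (x : Fin d → ℤ) (T : ℝ) : IntegrableOn (fun s =>
      Real.exp (-((∫ q in (0:ℝ)..s, W x q) - r * s)) * avg r W x s) (Icc 0 T) := by
  have hc : Continuous fun s => Real.exp (-((∫ q in (0:ℝ)..s, W x q) - r * s)) := by
    have h2 : Continuous fun s => ∫ q in (0:ℝ)..s, W x q := intervalIntegral.continuous_primitive
      (fun a b => (hW.cont x).intervalIntegrable (μ := volume) a b) 0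
    fun_prop
  have h1 : IntegrableOn (avg r W x) (Icc 0 T) := by
    refine Measure.integrableOn_of_bounded (M := Real.exp (M * T)) (by simp)
      (measurable_avg hW r x).aestronglyMeasurable ?_
    refine (ae_restrict_iff' measurableSet_Icc).mpr (ae_of_all _ fun s hs => ?_)
    rw [Real.norm_eq_abs, abs_of_nonneg (avg_nonneg _ _ _ _)]
    refine (avg_le hW r x hs.1).trans (Real.exp_le_exp.mpr ?_)
    have := hW.M_nonneg
    have := hs.2
    gcongr
  exact h1.continuousOn_mul hc.continuousOn isCompact_Icc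

lemma fk_continuousOn [NeZero d] {M : ℝ} {W : (Fin d → ℤ) → ℝ → ℝ} (hW : Pot M W) {r : ℝ}
    (hr : 0 < r) (x : Fin d → ℤ) {T : ℝ} (hT : 0 ≤ T) : ContinuousOn (fk r W x) (Icc 0 T) := by
  have h1 : ContinuousOn (fun t => Real.exp ((∫ q in (0:ℝ)..t, W x q) - r * t) *
      ((if x = 0 then 1 else 0) + r * ∫ s in (0:ℝ)..t,
        Real.exp (-((∫ q in (0:ℝ)..s, W x q) - r * s)) * avg r W x s)) (Icc 0 T) := by
    have h2 : Continuous fun s => ∫ q in (0:ℝ)..s, W x q := intervalIntegral.continuous_primitive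
      (fun a b => (hW.cont x).intervalIntegrable (μ := volume) a b) 0
    have h3 := intervalIntegral.continuousOn_primitive_interval (a := 0) (b := T)
      (f := fun s => Real.exp (-((∫ q in (0:ℝ)..s, W x q) - r * s)) * avg r W x s)
      (μ := volume) (by rw [uIcc_of_le hT]; exact mild_integrableOn hW r x T)
    rw [uIcc_of_le hT] at h3
    refine ContinuousOn.mul (by fun_prop) ?_
    exact continuousOn_const.add (continuousOn_const.mul h3)
  exact h1.congr fun t ht => fk_mild hW hr x ht.1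

lemma avg_continuousOn [NeZero d] {M : ℝ} {W : (Fin d → ℤ) → ℝ → ℝ} (hW : Pot M W) {r : ℝ}
    (hr : 0 < r) (x : Fin d → ℤ) {T : ℝ} (hT : 0 ≤ T) : ContinuousOn (avg r W x) (Icc 0 T) := by
  unfold avg
  exact continuousOn_const.mul (continuousOn_finsetSum _ fun j _ => fk_continuousOn hW hr _ hT)

lemma fk_init [NeZero d] {M : ℝ} {W : (Fin d → ℤ) → ℝ → ℝ} (hW : Pot M W) {r : ℝ}
    (hr : 0 < r) (x : Fin d → ℤ) : fk r W x 0 = if x = 0 then 1 else 0 := by
  rw [fk_mild hW hr x le_rfl]
  simp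

/-- The Feynman-Kac functional solves the parabolic Anderson equation -/
theorem fk_solOn [NeZero d] {M : ℝ} {W : (Fin d → ℤ) → ℝ → ℝ} (hW : Pot M W) {κ : ℝ}
    (hκ : 0 < κ) {T : ℝ} (hT : 0 ≤ T) : SolOn κ T W (fk (2 * d * κ) W) := by
  have hd : (0 : ℝ) < d := by exact_mod_cast Nat.pos_of_ne_zero (NeZero.ne d)
  have hr : 0 < 2 * d * κ := by positivity
  refine ⟨fun x t _ => fk_nonneg _ _ _ _, fun x => fk_init hW hr x,
    fun x => fk_continuousOn hW hr x hT, fun x t ht => ?_⟩
  set r := 2 * d * κ with hrdef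
  set f : ℝ → ℝ := fun s => Real.exp (-((∫ q in (0:ℝ)..s, W x q) - r * s)) * avg r W x s with hf
  have hcI : Continuous fun s => ∫ q in (0:ℝ)..s, W x q := intervalIntegral.continuous_primitive
      (fun a b => (hW.cont x).intervalIntegrable (μ := volume) a b) 0
  have hfm : Measurable f := by
    refine Measurable.mul ?_ (measurable_avg hW r x)
    have : Continuous fun s => Real.exp (-((∫ q in (0:ℝ)..s, W x q) - r * s)) := by fun_prop
    exact this.measurable
  have hfc : ContinuousWithinAt f (Ioi t) t := by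
    have h1 : ContinuousOn f (Icc 0 T) := by
      refine ContinuousOn.mul ?_ (avg_continuousOn hW hr x hT)
      have : Continuous fun s => Real.exp (-((∫ q in (0:ℝ)..s, W x q) - r * s)) := by fun_prop
      exact this.continuousOn
    have h2 := h1 t ⟨ht.1, ht.2.le⟩
    refine h2.mono_of_mem_nhdsWithin ?_
    refine mem_nhdsWithin.mpr ⟨Iio T, isOpen_Iio, ht.2, ?_⟩
    rintro s ⟨hs1, hs2⟩
    exact ⟨ht.1.trans hs2.le, le_of_lt hs1⟩
  have hfi : IntervalIntegrable f volume 0 t := by
    rw [intervalIntegrable_iff_integrableOn_Icc_of_le ht.1]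
    exact mild_integrableOn hW r x t
  have h1 : HasDerivWithinAt (fun u => ∫ s in (0:ℝ)..u, f s) (f t) (Ici t) t :=
    intervalIntegral.integral_hasDerivWithinAt_right hfi
      (hfm.stronglyMeasurable.stronglyMeasurableAtFilter) hfc
  have h2 : HasDerivAt (fun u => ∫ q in (0:ℝ)..u, W x q) (W x t) t :=
    (hW.cont x).integral_hasStrictDerivAt 0 t |>.hasDerivAt
  have h3 : HasDerivAt (fun u => Real.exp ((∫ q in (0:ℝ)..u, W x q) - r * u))
      (Real.exp ((∫ q in (0:ℝ)..t, W x q) - r * t) * (W x t - r)) t := by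
    have h4 : HasDerivAt (fun u : ℝ => r * u) r t := by
      have := (hasDerivAt_id t).const_mul r
      simpa using this
    exact (h2.sub h4).exp
  have h5 : HasDerivWithinAt (fun u => Real.exp ((∫ q in (0:ℝ)..u, W x q) - r * u) *
      ((if x = 0 then 1 else 0) + r * ∫ s in (0:ℝ)..u, f s))
      (Real.exp ((∫ q in (0:ℝ)..t, W x q) - r * t) * (W x t - r) *
        ((if x = 0 then 1 else 0) + r * ∫ s in (0:ℝ)..t, f s) +
        Real.exp ((∫ q in (0:ℝ)..t, W x q) - r * t) * (r * f t)) (Ici t) t :=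
    h3.hasDerivWithinAt.mul ((h1.const_mul r).const_add _)
  have h6 : HasDerivWithinAt (fk r W x) (Real.exp ((∫ q in (0:ℝ)..t, W x q) - r * t) *
        (W x t - r) * ((if x = 0 then 1 else 0) + r * ∫ s in (0:ℝ)..t, f s) +
        Real.exp ((∫ q in (0:ℝ)..t, W x q) - r * t) * (r * f t)) (Ici t) t := by
    refine h5.congr (fun u hu => fk_mild hW hr x (ht.1.trans hu)) (fk_mild hW hr x ht.1)
  refine h6.congr_deriv ?_
  have h7 := avg_eq (κ := κ) W x t
  rw [← hrdef] at h7
  rw [← h7]
  have h8 : Real.exp ((∫ q in (0:ℝ)..t, W x q) - r * t) * (r * f t) = r * avg r W x t := by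
    simp only [hf]
    rw [← mul_assoc, mul_comm _ r, mul_assoc, ← mul_assoc (Real.exp _), ← Real.exp_add]
    simp
  have h9 := fk_mild hW hr x ht.1
  rw [h8]
  have h10 : Real.exp ((∫ q in (0:ℝ)..t, W x q) - r * t) *
        (W x t - r) * ((if x = 0 then 1 else 0) + r * ∫ s in (0:ℝ)..t, f s) =
        (W x t - r) * fk r W x t := by
    rw [h9]; ring
  rw [h10]
  ring

end Pool.Agent.Lib.Helper97.PAM
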