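import Mathlib
import Pool.Agent.Lib.Helper97.PAM.FKSol
import Pool.Agent.Lib.Helper97.PAM.Env

open MeasureTheory Filter Set Topology ProbabilityTheory
open scoped ENNReal NNReal

namespace Pool.Agent.Lib.Helper97.PAM

variable {d : ℕ}

lemma feynmanKac_eq [NeZero d] (κ γ : ℝ) (ξ : (Fin d → ℤ) → ℝ → ℝ) (t : ℝ) :
    feynmanKac κ γ ξ t = fk (2 * d * κ) (fun x s => γ * ξ x (t - s)) 0 t := by
  unfold feynmanKac fk fkInt walk
  refine integral_congr_ae (ae_of_all _ fun w => ?_)
  simp only [zero_add, sub_sub_cancel, intervalIntegral.integral_const_mul]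

/-- the field -/
noncomputable def field (d : ℕ) [NeZero d] (w : solenoid) (x : Fin d → ℤ) (t : ℝ) : ℝ :=
  F (w + tr (x 0) t)

lemma tr_zero : tr 0 0 = 0 := by
  ext k
  simp [tr_apply]

lemma measurable_field_joint [NeZero d] (x : Fin d → ℤ) :
    Measurable fun p : solenoid × ℝ => field d p.1 x p.2 := by
  unfold field
  refine measurable_F.comp ?_
  have : Continuous fun p : solenoid × ℝ => p.1 + tr (x 0) p.2 :=
    continuous_fst.add ((continuous_tr _).comp continuous_snd)
  exact this.measurable

lemma measurable_field [NeZero d] (x : Fin d → ℤ) (t : ℝ) :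
    Measurable fun w : solenoid => field d w x t := by
  unfold field
  have : Continuous fun w : solenoid => w + tr (x 0) t := continuous_add_const _
  exact measurable_F.comp this.measurable

lemma measurable_path_field [NeZero d] : Measurable (path (field d)) :=
  measurable_pi_lambda _ fun p => measurable_field p.1 p.2

lemma shift_path [NeZero d] (y : Fin d → ℤ) (s : ℝ≥0) (w : solenoid) :
    shift y s (path (field d) w) = path (field d) (tr (y 0) s + w) := by
  funext p
  unfold shift path field
  congr 1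
  have h := tr_add (p.1 0) (y 0) (p.2 : ℝ) (s : ℝ)
  simp only [Pi.add_apply, NNReal.coe_add]
  rw [h]
  abel

lemma measurePreserving_tr (g : solenoid) : MeasurePreserving (fun w => g + w) haar haar :=
  measurePreserving_add_left haar g

lemma ae_inv_time [NeZero d] {B : Set ((Fin d → ℤ) × ℝ≥0 → ℝ)}
    (hinv : ∀ s : ℝ≥0, shift 0 s ⁻¹' B =ᵐ[haar.map (path (field d))] B) (s : ℝ≥0) :
    (fun w => tr 0 (s : ℝ) + w) ⁻¹' (path (field d) ⁻¹' B) =ᵐ[haar] path (field d) ⁻¹' B := by
  have h1 := (measurable_path_field (d := d)).quasiMeasurePreserving haar |>.preimage_ae_eq (hinv s)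
  have h2 : path (field d) ⁻¹' (shift 0 s ⁻¹' B) =
      (fun w => tr 0 (s : ℝ) + w) ⁻¹' (path (field d) ⁻¹' B) := by
    ext w
    simp only [mem_preimage]
    rw [shift_path]
    simp
  rw [h2] at h1
  exact h1

lemma field_A1 [NeZero d] :
    AssumptionA1 (d := d) haar (field d) (∫ w, field d w 0 0 ∂haar) := by
  have h00 : ∀ w : solenoid, field d w 0 0 = F w := by
    intro w
    unfold field
    simp only [Pi.zero_apply]
    rw [tr_zero, add_zero]
  refine ⟨measurable_field, ?_, ?_, ?_, ?_, ?_, rfl⟩
  · intro y s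
    have h1 : (fun w => shift y s (path (field d) w)) =
        path (field d) ∘ (fun w => tr (y 0) s + w) := by
      funext w; rw [shift_path]; rfl
    rw [h1, ← Measure.map_map measurable_path_field (measurePreserving_tr _).measurable,
      (measurePreserving_tr _).map_eq]
  · intro B hB hinv
    rw [Measure.map_apply measurable_path_field hB]
    refine zero_or_one_of_dense dense_time (measurable_path_field hB) ?_
    rintro _ ⟨t, rfl⟩
    rcases le_total 0 t with ht | ht
    · have h1 := ae_inv_time hinv t.toNNReal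
      rw [Real.coe_toNNReal t ht] at h1
      exact h1
    · have h1 := ae_inv_time hinv (-t).toNNReal
      rw [Real.coe_toNNReal (-t) (by linarith)] at h1
      have h2 := (measurePreserving_tr (tr 0 t)).quasiMeasurePreserving.preimage_ae_eq h1
      have h3 : (fun w => tr 0 t + w) ⁻¹' ((fun w => tr 0 (-t) + w) ⁻¹'
          (path (field d) ⁻¹' B)) = path (field d) ⁻¹' B := by
        ext w
        simp only [mem_preimage]
        rw [← add_assoc, ← tr_add]
        simp [tr_zero]
      rw [h3] at h2
      exact h2.symm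
  · intro B hB hinv
    rw [Measure.map_apply measurable_path_field hB]
    refine zero_or_one_of_dense dense_space (measurable_path_field hB) ?_
    rintro _ ⟨n, rfl⟩
    have h1 := (measurable_path_field (d := d)).quasiMeasurePreserving haar |>.preimage_ae_eq
      (hinv (Pi.single 0 n))
    have h2 : path (field d) ⁻¹' (shift (Pi.single 0 n) 0 ⁻¹' B) =
        (fun w => tr n 0 + w) ⁻¹' (path (field d) ⁻¹' B) := by
      ext w
      simp only [mem_preimage]
      rw [shift_path]
      simp
    rw [h2] at h1
    exact h1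
  · intro c hc
    simp_rw [h00] at hc
    by_cases h0 : c = 0
    · subst h0
      apply haar_one_ne
      have : {w | F w = 1} ⊆ {w | ¬ F w = 0} := by
        intro w hw
        simp only [mem_ofPred_eq] at hw ⊢
        rw [hw]; norm_num
      exact measure_mono_null this (ae_iff.mp hc)
    · apply haar_zero_ne
      have : {w | F w = 0} ⊆ {w | ¬ F w = c} := by
        intro w hw
        simp only [mem_ofPred_eq] at hw ⊢
        rw [hw]; exact fun h => h0 h.symm
      exact measure_mono_null this (ae_iff.mp hc)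
  · simp_rw [h00]; exact integrable_F

lemma pot_field [NeZero d] {γ : ℝ} (hγ : 0 ≤ γ) (w : solenoid) (T : ℝ) :
    Pot γ (fun x s => γ * field d w x (T - s)) := by
  refine ⟨fun y => ?_, fun y s => mul_nonneg hγ (F_nonneg _), fun y s => ?_⟩
  · exact continuous_const.mul ((continuous_F_time w (y 0)).comp
      (continuous_const.sub continuous_id))
  · have := F_le_one (w + tr (y 0) (T - s))
    calc γ * field d w y (T - s) ≤ γ * 1 := by
          unfold field; gcongr
      _ = γ := mul_one γ

lemma feynmanKac_le [NeZero d] {κ γ : ℝ} (hγ : 0 ≤ γ) (w : solenoid) {t : ℝ}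
    (ht : 0 ≤ t) : feynmanKac κ γ (field d w) t ≤ Real.exp (γ * t) := by
  rw [feynmanKac_eq]
  exact fk_le (pot_field hγ w t) _ 0 ht

lemma pos_eq_zero {w : ℕ → ℝ × (Fin d × Bool)} {s : ℝ} (h : s < (w 0).1) : position w s = 0 := by
  unfold position jumpCount
  have h1 : sInf {n | s < jumpTime w (n + 1)} = 0 := by
    rw [Nat.sInf_eq_zero]
    left
    change s < jumpTime w (0 + 1)
    simpa [jumpTime] using h
  rw [h1]
  simp

lemma expMeasure_Ioi {L : ℝ} (hL : 0 ≤ L) : (expMeasure 1).real (Ioi L) = Real.exp (-L) := by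
  have h1 := integral_expMeasure (indicator (Ioi L) (fun _ => (1:ℝ)))
  rw [integral_indicator measurableSet_Ioi] at h1
  simp only [integral_const, smul_eq_mul, mul_one, measureReal_restrict_apply_univ] at h1
  rw [h1]
  have h2 : ∀ x, Real.exp (-x) * indicator (Ioi L) (fun _ => (1:ℝ)) x =
      indicator (Ioi L) (fun x => Real.exp (-x)) x := by
    intro x
    by_cases hx : x ∈ Ioi L
    · rw [indicator_of_mem hx, indicator_of_mem hx, mul_one]
    · rw [indicator_of_notMem hx, indicator_of_notMem hx, mul_zero]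
  simp_rw [h2]
  rw [setIntegral_indicator measurableSet_Ioi, Ioi_inter_Ioi, max_eq_right hL,
    integral_exp_neg_Ioi]

lemma walkLaw_wait [NeZero d] {L : ℝ} (hL : 0 ≤ L) :
    (walkLaw d).real {w | L < (w 0).1} = Real.exp (-L) := by
  have hexp := isProbabilityMeasure_expMeasure (r := 1) one_pos
  rw [← expMeasure_Ioi hL]
  have h1 : MeasurePreserving (fun w : ℕ → ℝ × (Fin d × Bool) => w 0) (walkLaw d)
      (clockLaw d) := measurePreserving_eval_infinitePi (fun _ : ℕ => clockLaw d) 0
  have h2 : MeasurePreserving (Prod.fst : ℝ × (Fin d × Bool) → ℝ) (clockLaw d) (expMeasure 1) :=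
    measurePreserving_fst
  have h3 := h2.comp h1
  have h4 := h3.measureReal_preimage (s := Ioi L) measurableSet_Ioi.nullMeasurableSet
  rw [← h4]
  rfl

lemma le_feynmanKac [NeZero d] {κ γ : ℝ} (hκ : 0 ≤ κ) (hγ : 0 ≤ γ) (w : solenoid) {t : ℝ}
    (ht : 0 ≤ t) : Real.exp (-(2 * d * κ * t)) ≤ feynmanKac κ γ (field d w) t := by
  rw [feynmanKac_eq]
  have hL : 0 ≤ 2 * d * κ * t := by positivity
  rw [← walkLaw_wait (d := d) hL]
  have hW := pot_field (d := d) hγ w t
  set W : (Fin d → ℤ) → ℝ → ℝ := fun x s => γ * field d w x (t - s) with hWdef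
  have hm : MeasurableSet {w : ℕ → ℝ × (Fin d × Bool) | 2 * d * κ * t < (w 0).1} :=
    measurableSet_lt measurable_const (measurable_fst.comp (measurable_pi_apply 0))
  have h1 : (walkLaw d).real {w | 2 * d * κ * t < (w 0).1} =
      ∫ w, indicator {w : ℕ → ℝ × (Fin d × Bool) | 2 * d * κ * t < (w 0).1} (fun _ => (1:ℝ)) w
        ∂(walkLaw d) := by
    rw [integral_indicator hm]
    simp
  rw [h1]
  unfold fk
  refine integral_mono ((integrable_const 1).indicator hm) (integrable_fkInt hW _ 0 ht) fun v => ?_
  by_cases hv : 2 * d * κ * t < (v 0).1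
  · rw [indicator_of_mem (by exact hv)]
    unfold fkInt
    rw [pos_eq_zero hv, add_zero, if_pos rfl, mul_one]
    apply Real.one_le_exp
    refine intervalIntegral.integral_nonneg ht fun q _ => hW.nonneg _ _
  · rw [indicator_of_notMem (by exact hv)]
    exact fkInt_nonneg _ _ _ _ _

lemma measurable_field_rev [NeZero d] (γ t : ℝ) (x : Fin d → ℤ) :
    Measurable fun p : solenoid × ℝ => γ * field d p.1 x (t - p.2) := by
  unfold field
  refine (measurable_F.comp ?_).const_mul γ
  have : Continuous fun p : solenoid × ℝ => p.1 + tr (x 0) (t - p.2) :=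
    continuous_fst.add ((continuous_tr _).comp (continuous_const.sub continuous_snd))
  exact this.measurable

lemma measurable_feynmanKac [NeZero d] (κ γ t : ℝ) :
    Measurable fun w : solenoid => feynmanKac κ γ (field d w) t := by
  simp_rw [feynmanKac_eq]
  exact measurable_fk (W := fun w x s => γ * field d w x (t - s)) (t := fun _ => t)
    (fun y => measurable_field_rev γ t y) (2 * d * κ) 0 measurable_const

lemma field_A2 [NeZero d] : AssumptionA2 (d := d) haar (field d) := by
  have hpos : ∀ κ γ t, 0 ≤ κ → 0 ≤ γ → 0 ≤ t → ∀ w : solenoid,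
      0 < feynmanKac (d := d) κ γ (field d w) t :=
    fun κ γ t hκ hγ ht w => (Real.exp_pos _).trans_le (le_feynmanKac (d := d) hκ hγ w ht)
  have hup : ∀ κ γ t, 0 ≤ κ → 0 ≤ γ → 0 ≤ t → ∀ w : solenoid,
      Real.log (feynmanKac κ γ (field d w) t) ≤ γ * t := by
    intro κ γ t hκ hγ ht w
    have h1 := Real.log_le_log (hpos κ γ t hκ hγ ht w) (feynmanKac_le hγ w ht)
    rwa [Real.log_exp] at h1
  have hlow : ∀ κ γ t, 0 ≤ κ → 0 ≤ γ → 0 ≤ t → ∀ w : solenoid,
      -(2 * d * κ * t) ≤ Real.log (feynmanKac κ γ (field d w) t) := by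
    intro κ γ t hκ hγ ht w
    have h1 := Real.log_le_log (Real.exp_pos _) (le_feynmanKac (d := d) hκ hγ w ht)
    rwa [Real.log_exp] at h1
  have hint : ∀ κ γ t, 0 ≤ κ → 0 ≤ γ → 0 ≤ t →
      Integrable (fun w => Real.log (feynmanKac κ γ (field d w) t)) haar := by
    intro κ γ t hκ hγ ht
    refine Integrable.of_bound
      (Real.measurable_log.comp (measurable_feynmanKac κ γ t)).aestronglyMeasurable
      (max (γ * t) (2 * d * κ * t)) (ae_of_all _ fun w => ?_)
    rw [Real.norm_eq_abs, abs_le]
    constructor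
    · have h1 := hlow κ γ t hκ hγ ht w
      have h2 := le_max_right (γ * t) (2 * d * κ * t)
      linarith
    · exact (hup κ γ t hκ hγ ht w).trans (le_max_left _ _)
  refine ⟨hpos, hint, fun κ γ hκ hγ => ⟨γ, fun t ht => ?_⟩⟩
  have h1 := integral_mono (hint κ γ t hκ hγ ht) (integrable_const (γ * t))
    (fun w => hup κ γ t hκ hγ ht w)
  simp only [integral_const, probReal_univ, one_smul] at h1
  exact h1

/-- the quenched Lyapunov exponent equals `γ` for every `κ > 0` -/
theorem field_lyapunov [NeZero d] {κ γ : ℝ} (hκ : 0 < κ) (hγ : 0 < γ) (w : solenoid) :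
    Tendsto (fun t => Real.log (feynmanKac κ γ (field d w) t) / t) atTop (𝓝 γ) := by
  rw [tendsto_order]
  constructor
  · intro a ha
    obtain ⟨R, p, hp, hmain⟩ := lower_asymp (d := d) hκ hγ.le (δ := (γ - a) / 2) (by linarith)
    obtain ⟨v, D, hv0, hvp, hD, hstrip⟩ := exists_strip w R p hp
    filter_upwards [hmain D hD, eventually_gt_atTop 0] with T hT hT0
    obtain ⟨c, hc, hcs⟩ := hstrip T
    have h1 := hT (c - v * T) v (fun x s => γ * field d w x (T - s))
      (fk (2 * d * κ) (fun x s => γ * field d w x (T - s))) hc (by rwa [abs_of_pos hv0])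
      (fk_solOn (pot_field hγ.le w T) hκ hT0.le)
      (fun x t _ => (pot_field hγ.le w T).nonneg x t)
      (fun x t _ hx => by
        unfold field
        rw [hcs (x 0) (T - t), mul_one]
        rw [show (c - v * (T - t)) = c - v * T + v * t by ring]
        exact hx)
    rw [← feynmanKac_eq] at h1
    have h2 := Real.log_le_log (Real.exp_pos _) h1
    rw [Real.log_exp] at h2
    rw [lt_div_iff₀ hT0]
    nlinarith
  · intro a ha
    filter_upwards [eventually_gt_atTop 0] with T hT0
    have h1 := Real.log_le_log ((Real.exp_pos _).trans_le (le_feynmanKac (d := d) hκ.le hγ.le w hT0.le))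
      (feynmanKac_le hγ.le w hT0.le)
    rw [Real.log_exp] at h1
    rw [div_lt_iff₀ hT0]
    nlinarith

end Pool.Agent.Lib.Helper97.PAM
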